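import Pool.Agent.Helper44.KD.NearFam
import Pool.Agent.Helper41.KD.Int

/-! The second moment of a block of a family. -/

set_option autoImplicit false

open Finset MeasureTheory

namespace Pool.Agent.Helper44.KD

open H44TX Pool.Agent.Helper78.KD
open Pool.Agent.Helper41.KD (bonnet int_bound)



section Fam

variable {u v : ℕ → ℝ → ℝ} {a b β₁ β₂ : ℝ}

theorem fam_incr (hF : Fam u v a b β₁ β₂) (n : ℕ) {x y : ℝ} (hx : x ∈ Set.Icc a b)
    (hy : y ∈ Set.Icc a b) (hxy : x ≤ y) :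
    v n x * (y - x) ≤ u n y - u n x ∧ u n y - u n x ≤ v n y * (y - x) := by
  rcases eq_or_lt_of_le hxy with h | h
  · subst h; simp
  · have hsub : Set.Icc x y ⊆ Set.Icc a b := Set.Icc_subset_Icc hx.1 hy.2
    obtain ⟨c, hc, hc2⟩ := exists_hasDerivAt_eq_slope (u n) (v n) h
      (fun z hz => (hF.deriv n z (hsub hz)).continuousAt.continuousWithinAt)
      (fun z hz => hF.deriv n z (hsub (Set.Ioo_subset_Icc_self hz)))
    rw [eq_div_iff (by linarith : y - x ≠ 0)] at hc2
    have hcI : c ∈ Set.Icc a b := hsub (Set.Ioo_subset_Icc_self hc)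
    have m1 := hF.mono n hx hcI hc.1.le
    have m2 := hF.mono n hcI hy hc.2.le
    rw [← hc2]
    exact ⟨mul_le_mul_of_nonneg_right m1 (by linarith), mul_le_mul_of_nonneg_right m2 (by linarith)⟩

theorem fam_growth (hF : Fam u v a b β₁ β₂) {β : ℝ} (hβ : 0 < β) (hββ : β ≤ β₁) (n j : ℕ) {x : ℝ}
    (hx : x ∈ Set.Icc a b) : β ^ j * v n x ≤ v (n + j) x := by
  induction j with
  | zero => simp
  | succ j ih =>
    have h1 := (hF.growth (n + j) x hx).1
    have h2 := hF.pos (n + j) x hx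
    calc β ^ (j + 1) * v n x = β * (β ^ j * v n x) := by ring
      _ ≤ β * v (n + j) x := mul_le_mul_of_nonneg_left ih hβ.le
      _ ≤ β₁ * v (n + j) x := mul_le_mul_of_nonneg_right hββ h2.le
      _ ≤ v (n + (j + 1)) x := h1

theorem fam_len (hF : Fam u v a b β₁ β₂) (n : ℕ) {p q : ℝ} (hp : a ≤ p) (hpq : p < q)
    (hq : q ≤ b) (h1 : 1 ≤ u n q - u n p) (h2 : u n q - u n p ≤ 2) :
    1 / v n p ≤ 2 * (q - p) := by
  have hpI : p ∈ Set.Icc a b := ⟨hp, hpq.le.trans hq⟩
  have hqI : q ∈ Set.Icc a b := ⟨hp.trans hpq.le, hq⟩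
  have e1 := (fam_incr hF n hpI hqI hpq.le).2
  have e2 := hF.dist2 n p hpI q hqI hpq.le h2
  have e3 := hF.pos n p hpI
  rw [div_le_iff₀ e3]
  have e4 : v n q * (q - p) ≤ 2 * v n p * (q - p) :=
    mul_le_mul_of_nonneg_right e2 (by linarith)
  linarith

theorem fam_inv (hF : Fam u v a b β₁ β₂) {β : ℝ} (hβ : 0 < β) (hββ : β ≤ β₁) (n j : ℕ) {p q : ℝ}
    (hp : a ≤ p) (hpq : p < q)
    (hq : q ≤ b) (h1 : 1 ≤ u n q - u n p) (h2 : u n q - u n p ≤ 2) :
    1 / v (n + j) p ≤ 2 * β⁻¹ ^ j * (q - p) := by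
  have hpI : p ∈ Set.Icc a b := ⟨hp, hpq.le.trans hq⟩
  have e1 := fam_growth hF hβ hββ n j hpI
  have e2 := fam_len hF n hp hpq hq h1 h2
  have e3 := hF.pos n p hpI
  have e4 : 1 / v (n + j) p ≤ 1 / (β ^ j * v n p) := one_div_le_one_div_of_le (by positivity) e1
  refine e4.trans ?_
  have e5 : 1 / (β ^ j * v n p) = β⁻¹ ^ j * (1 / v n p) := by
    rw [inv_pow]; field_simp
  rw [e5]
  calc β⁻¹ ^ j * (1 / v n p) ≤ β⁻¹ ^ j * (2 * (q - p)) :=
        mul_le_mul_of_nonneg_left e2 (by positivity)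
    _ = 2 * β⁻¹ ^ j * (q - p) := by ring

theorem fam_cont (hF : Fam u v a b β₁ β₂) (n : ℕ) {p q : ℝ} (hp : a ≤ p) (hq : q ≤ b) :
    ContinuousOn (u n) (Set.Icc p q) := fun x hx =>
  (hF.deriv n x ⟨hp.trans hx.1, hx.2.trans hq⟩).continuousAt.continuousWithinAt

theorem fam_mono (hF : Fam u v a b β₁ β₂) (n : ℕ) {p q : ℝ} (hp : a ≤ p) (hq : q ≤ b) :
    MonotoneOn (u n) (Set.Icc p q) := by
  intro x hx y hy hxy
  have hxI : x ∈ Set.Icc a b := ⟨hp.trans hx.1, hx.2.trans hq⟩
  have hyI : y ∈ Set.Icc a b := ⟨hp.trans hy.1, hy.2.trans hq⟩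
  have e1 := (fam_incr hF n hxI hyI hxy).1
  have e2 := hF.pos n x hxI
  have e3 : 0 ≤ v n x * (y - x) := mul_nonneg e2.le (by linarith)
  linarith

/-- the general bound for a covariance -/
theorem gen_bound (hF : Fam u v a b β₁ β₂) {φ : ℝ → ℝ} {V K : ℝ} (hφ : Cls φ V K) (i j : ℕ)
    {p q : ℝ} (hp : a ≤ p) (hpq : p < q) (hq : q ≤ b) :
    |∫ x in p..q, φ (u i x) * φ (u j x)|
      ≤ 1 / v j p * (1 + V * (2 * (u i q - u i p + 1))) := by
  obtain ⟨s₁, s₂, l1, l2, h, hs⟩ := hφ.lift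
  have hφc := cls_cont hφ
  have hpI : p ∈ Set.Icc a b := ⟨hp, hpq.le.trans hq⟩
  have hqI : q ∈ Set.Icc a b := ⟨hp.trans hpq.le, hq⟩
  have hv := hF.pos j p hpI
  have hper : ∀ t, φ (t + 1) = φ t := fun t => by
    rw [hs, hs, l1.2, l2.2]; ring
  have hgc : ContinuousOn (fun x => φ (u j x)) (Set.Icc p q) :=
    hφc.comp_continuousOn (fam_cont hF j hp hq)
  have hc : ∀ x ∈ Set.Icc p q, |∫ y in p..x, φ (u j y)| ≤ 1 / v j p := fun x hx =>
    int_bound hF hφc hper hφ.bd hφ.mean j hp hx.1 (hx.2.trans hq)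
  have hmu := fam_mono hF i hp hq
  have hpp : p ∈ Set.Icc p q := ⟨le_rfl, hpq.le⟩
  have hqq : q ∈ Set.Icc p q := ⟨hpq.le, le_rfl⟩
  have key : ∀ s : ℝ → ℝ, Pool.Agent.Helper78.KD.IsLift s →
      |∫ x in p..q, (s (u i q) - s (u i x)) * φ (u j x)|
        ≤ 1 / v j p * (u i q - u i p + 1) := by
    intro s ls
    have hanti : AntitoneOn (fun x => s (u i q) - s (u i x)) (Set.Icc p q) := by
      intro x hx y hy hxy
      have := ls.1 (hmu hx hy hxy)
      simp only
      linarith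
    have h1 := bonnet hpq.le hanti (by simp) hgc hc
    refine h1.trans (mul_le_mul_of_nonneg_left ?_ (by positivity))
    -- s y - s x ≤ y - x + 1
    have hy : 0 ≤ u i q - u i p := by have := hmu hpp hqq hpq.le; linarith
    have h10 : u i q - u i p ≤ (⌊u i q - u i p⌋₊ + 1 : ℕ) := by
      push_cast; exact (Nat.lt_floor_add_one _).le
    have h11 := ls.1 (show u i q ≤ u i p + (⌊u i q - u i p⌋₊ + 1 : ℕ) by linarith)
    rw [(lift_of ls).add_nat] at h11
    have h12 : (⌊u i q - u i p⌋₊ : ℝ) ≤ u i q - u i p := Nat.floor_le hy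
    push_cast at h11
    show s (u i q) - s (u i p) ≤ u i q - u i p + 1
    linarith
  -- integrability
  have hmono_int : ∀ s : ℝ → ℝ, Pool.Agent.Helper78.KD.IsLift s →
      IntervalIntegrable (fun x => (s (u i q) - s (u i x)) * φ (u j x)) volume p q := by
    intro s ls
    have hm : AntitoneOn (fun x => s (u i q) - s (u i x)) (Set.uIcc p q) := by
      rw [Set.uIcc_of_le hpq.le]
      intro x hx y hy hxy
      have := ls.1 (hmu hx hy hxy)
      simp only
      linarith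
    exact hm.intervalIntegrable.mul_continuousOn (by rw [Set.uIcc_of_le hpq.le]; exact hgc)
  have hI0 : IntervalIntegrable (fun x => φ (u i q) * φ (u j x)) volume p q := by
    apply ContinuousOn.intervalIntegrable
    rw [Set.uIcc_of_le hpq.le]
    exact continuousOn_const.mul hgc
  have hdec : ∀ x, φ (u i x) * φ (u j x) = φ (u i q) * φ (u j x)
      - V * ((s₁ (u i q) - s₁ (u i x)) * φ (u j x))
      + V * ((s₂ (u i q) - s₂ (u i x)) * φ (u j x)) := by
    intro x
    have : φ (u i x) = φ (u i q) - V * (s₁ (u i q) - s₁ (u i x)) + V * (s₂ (u i q) - s₂ (u i x)) := by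
      rw [hs, hs]; ring
    rw [this]; ring
  simp only [hdec]
  rw [intervalIntegral.integral_add (hI0.sub ((hmono_int s₁ l1).const_mul V))
    ((hmono_int s₂ l2).const_mul V),
    intervalIntegral.integral_sub hI0 ((hmono_int s₁ l1).const_mul V),
    intervalIntegral.integral_const_mul, intervalIntegral.integral_const_mul,
    intervalIntegral.integral_const_mul]
  have k0 : |φ (u i q) * ∫ x in p..q, φ (u j x)| ≤ 1 / v j p := by
    rw [abs_mul]
    calc |φ (u i q)| * |∫ x in p..q, φ (u j x)| ≤ 1 * (1 / v j p) :=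
          mul_le_mul (hφ.bd _) (hc q hqq) (abs_nonneg _) (by norm_num)
      _ = 1 / v j p := one_mul _
  have k1 : |V * ∫ x in p..q, (s₁ (u i q) - s₁ (u i x)) * φ (u j x)|
      ≤ V * (1 / v j p * (u i q - u i p + 1)) := by
    rw [abs_mul, abs_of_nonneg hφ.hV]
    exact mul_le_mul_of_nonneg_left (key s₁ l1) hφ.hV
  have k2 : |V * ∫ x in p..q, (s₂ (u i q) - s₂ (u i x)) * φ (u j x)|
      ≤ V * (1 / v j p * (u i q - u i p + 1)) := by
    rw [abs_mul, abs_of_nonneg hφ.hV]
    exact mul_le_mul_of_nonneg_left (key s₂ l2) hφ.hV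
  refine (abs_add_le _ _).trans ?_
  have k3 := abs_sub (φ (u i q) * ∫ x in p..q, φ (u j x))
    (V * ∫ x in p..q, (s₁ (u i q) - s₁ (u i x)) * φ (u j x))
  have k4 : 1 / v j p * (1 + V * (2 * (u i q - u i p + 1)))
      = 1 / v j p + V * (1 / v j p * (u i q - u i p + 1))
        + V * (1 / v j p * (u i q - u i p + 1)) := by ring
  rw [k4]
  linarith

end Fam

theorem block_var {γ : ℕ → ℝ} (hγ : ∀ d, 1 ≤ d → Irrational (γ d)) {β V ε : ℝ} (hβ : 1 < β)
    (hV : 0 ≤ V) (hε : 0 < ε) :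
    ∃ (D : ℕ) (τ κ : ℝ) (L₀ : ℕ), 0 < τ ∧ 0 < κ ∧ ∀ (u v : ℕ → ℝ → ℝ) (a b β₁ β₂ : ℝ), β ≤ β₁ →
      Fam u v a b β₁ β₂ → Ratio v a b τ D γ → ∀ L : ℕ, L₀ ≤ L → Dist u v a b κ L →
      ∀ (φ : ℝ → ℝ) (K : ℝ), Cls φ V K →
      BlockVar φ u a b (∫ t in (0 : ℝ)..1, φ t ^ 2) ε L := by
  have hβ0 : 0 < β := by linarith
  obtain ⟨D, ε₁, hε₁, hrows⟩ := rows hβ (show (0 : ℝ) ≤ 4 * V + 2 by linarith) hε
  obtain ⟨τ, κ, T₀, hτ, hκ, hT, hnear⟩ := near_lags (V := V) hγ hε₁ D
  obtain ⟨i₀, hi₀⟩ := Filter.eventually_atTop.1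
    ((tendsto_pow_atTop_atTop_of_one_lt hβ).eventually_ge_atTop (2 * T₀))
  obtain ⟨L₀, hL₀⟩ := hrows i₀
  refine ⟨D, τ, min κ 1, L₀, hτ, lt_min hκ one_pos, ?_⟩
  intro u v a b β₁ β₂ hββ hF hR L hL hD φ K hφ n p q hp hpq hq h1 h2
  set Q := ∫ t in (0 : ℝ)..1, φ t ^ 2 with hQ
  have hpI : p ∈ Set.Icc a b := ⟨hp, hpq.le.trans hq⟩
  have hqI : q ∈ Set.Icc a b := ⟨hp.trans hpq.le, hq⟩
  have hℓ : 0 < q - p := by linarith
  have hφc := cls_cont hφ
  obtain ⟨s₁, s₂, l1, l2, h, hs⟩ := hφ.lift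
  have hper : ∀ t, φ (t + 1) = φ t := fun t => by
    rw [hs, hs, l1.2, l2.2]; ring
  have hsub : Set.Icc p q ⊆ Set.Icc a b := Set.Icc_subset_Icc hp hq
  have hcomp : ∀ i, ContinuousOn (fun x => φ (u i x)) (Set.uIcc p q) := fun i => by
    rw [Set.uIcc_of_le hpq.le]
    exact hφc.comp_continuousOn (fam_cont hF i hp hq)
  have hI : ∀ i j, IntervalIntegrable (fun x => φ (u i x) * φ (u j x)) volume p q := fun i j =>
    ((hcomp i).mul (hcomp j)).intervalIntegrable
  let c : ℕ → ℕ → ℝ := fun i j => (∫ x in p..q, φ (u (n + i) x) * φ (u (n + j) x)) / (q - p)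
  have hcc : ∀ i j, c i j = c j i := by
    intro i j
    simp only [c]
    congr 2
    funext x
    ring
  have hQ1 : 0 ≤ Q ∧ Q ≤ 1 := by
    constructor
    · exact intervalIntegral.integral_nonneg (by norm_num) (fun x _ => sq_nonneg _)
    · have := abs_int_le (f := fun t => φ t ^ 2) (C := 1) (fun x => by
        rw [abs_pow]; exact pow_le_one₀ (abs_nonneg _) (hφ.bd x)) (a := 0) (b := 1) (by norm_num)
      have h4 := (abs_le.1 this).2
      simpa [← hQ] using h4
  have hinv : ∀ j, 1 / v (n + j) p ≤ 2 * β⁻¹ ^ j * (q - p) := fun j =>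
    fam_inv hF hβ0 hββ n j hp hpq hq h1 h2
  have hrpos : ∀ j : ℕ, 0 < β⁻¹ ^ j := fun j => pow_pos (inv_pos.2 hβ0) j
  -- diagonal
  have hdiag : ∀ j < L, |c j j - Q| ≤ (4 * V + 2) * β⁻¹ ^ j := by
    intro j _
    have hψc : Continuous fun t => φ t ^ 2 - Q := (hφc.pow 2).sub continuous_const
    have hb := int_bound hF (ψ := fun t => φ t ^ 2 - Q) hψc (fun t => by simp only [hper])
      (fun t => by
        have e1 : φ t ^ 2 ≤ 1 := by
          rw [← sq_abs]; exact pow_le_one₀ (abs_nonneg _) (hφ.bd t)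
        have e2 : 0 ≤ φ t ^ 2 := sq_nonneg _
        rw [abs_le]
        constructor <;> linarith [hQ1.1, hQ1.2])
      (by
        have hc2 : IntervalIntegrable (fun t => φ t ^ 2) volume 0 1 :=
          (hφc.pow 2).intervalIntegrable _ _
        rw [intervalIntegral.integral_sub hc2 intervalIntegrable_const, ← hQ]
        simp) (n + j) hp hpq.le hq
    have e1 : c j j - Q = (∫ x in p..q, (φ (u (n + j) x) ^ 2 - Q)) / (q - p) := by
      have hI2 : IntervalIntegrable (fun x => φ (u (n + j) x) ^ 2) volume p q :=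
        ((hcomp (n + j)).pow 2).intervalIntegrable
      rw [intervalIntegral.integral_sub hI2 intervalIntegrable_const,
        intervalIntegral.integral_const, smul_eq_mul]
      simp only [c]
      have e3 : ∀ x, φ (u (n + j) x) * φ (u (n + j) x) = φ (u (n + j) x) ^ 2 := fun x => by ring
      simp only [e3]
      field_simp
    rw [e1, abs_div, abs_of_pos hℓ, div_le_iff₀ hℓ]
    refine hb.trans ((hinv j).trans ?_)
    have := mul_pos (hrpos j) hℓ
    nlinarith [mul_nonneg hV this.le]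
  -- general lags
  have hgen : ∀ i j, i < j → j < L →
      |c i j| ≤ (4 * V + 2) * β⁻¹ ^ (j - i) + (4 * V + 2) * β⁻¹ ^ j := by
    intro i j hij hj
    have hb := gen_bound hF hφ (n + i) (n + j) hp hpq hq
    have hvi := hF.pos (n + i) p hpI
    have hvj := hF.pos (n + j) p hpI
    have e1 : u (n + i) q - u (n + i) p ≤ 2 * v (n + i) p * (q - p) := by
      have e2 := (fam_incr hF (n + i) hpI hqI hpq.le).2
      have e3 := hD n (n + i) (by omega) (by omega) p hpI q hqI hpq.le h2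
      have e4 : v (n + i) q ≤ 2 * v (n + i) p := by
        refine e3.trans (mul_le_mul_of_nonneg_right ?_ hvi.le)
        linarith [min_le_right κ 1]
      exact e2.trans (mul_le_mul_of_nonneg_right e4 hℓ.le)
    have e5 : v (n + i) p / v (n + j) p ≤ β⁻¹ ^ (j - i) := by
      have e6 := fam_growth hF hβ0 hββ (n + i) (j - i) hpI
      have e7 : n + i + (j - i) = n + j := by omega
      rw [e7] at e6
      rw [div_le_iff₀ hvj]
      have e8 : β⁻¹ ^ (j - i) * β ^ (j - i) = 1 := by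
        rw [← mul_pow, inv_mul_cancel₀ hβ0.ne', one_pow]
      calc v (n + i) p = β⁻¹ ^ (j - i) * (β ^ (j - i) * v (n + i) p) := by
            rw [← mul_assoc, e8, one_mul]
        _ ≤ β⁻¹ ^ (j - i) * v (n + j) p := mul_le_mul_of_nonneg_left e6 (hrpos _).le
    simp only [c]
    rw [abs_div, abs_of_pos hℓ, div_le_iff₀ hℓ]
    refine hb.trans ?_
    have e9 : 1 / v (n + j) p * (1 + V * (2 * (u (n + i) q - u (n + i) p + 1)))
        ≤ 1 / v (n + j) p * (1 + V * (2 * (2 * v (n + i) p * (q - p) + 1))) := by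
      apply mul_le_mul_of_nonneg_left _ (by positivity)
      have := mul_le_mul_of_nonneg_left e1 hV
      linarith
    refine e9.trans ?_
    have e10 : 1 / v (n + j) p * (1 + V * (2 * (2 * v (n + i) p * (q - p) + 1)))
        = (1 + 2 * V) * (1 / v (n + j) p) + 4 * V * (v (n + i) p / v (n + j) p) * (q - p) := by
      field_simp
      ring
    rw [e10]
    have e11 : (1 + 2 * V) * (1 / v (n + j) p) ≤ (1 + 2 * V) * (2 * β⁻¹ ^ j * (q - p)) :=
      mul_le_mul_of_nonneg_left (hinv j) (by linarith)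
    have e12 : 4 * V * (v (n + i) p / v (n + j) p) * (q - p)
        ≤ 4 * V * β⁻¹ ^ (j - i) * (q - p) :=
      mul_le_mul_of_nonneg_right (mul_le_mul_of_nonneg_left e5 (by linarith)) hℓ.le
    have e13 := mul_pos (hrpos (j - i)) hℓ
    nlinarith
  -- small lags
  have hsmall : ∀ i j, i₀ ≤ i → i < j → j ≤ i + D → j < L → |c i j| ≤ ε₁ := by
    intro i j hi hij hjD hj
    have hlen : T₀ ≤ u (n + i) q - u (n + i) p := by
      have e1 := (fam_incr hF (n + i) hpI hqI hpq.le).1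
      have e2 := fam_growth hF hβ0 hββ n i hpI
      have e3 := fam_len hF n hp hpq hq h1 h2
      have e4 := hF.pos n p hpI
      rw [div_le_iff₀ e4] at e3
      have e5 : β ^ i * v n p * (q - p) ≤ v (n + i) p * (q - p) :=
        mul_le_mul_of_nonneg_right e2 hℓ.le
      have e6 := hi₀ i hi
      have e7 : 2 * T₀ * (v n p * (q - p)) ≤ β ^ i * (v n p * (q - p)) :=
        mul_le_mul_of_nonneg_right e6 (by positivity)
      have e8 : T₀ * 1 ≤ T₀ * (2 * (v n p * (q - p))) :=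
        mul_le_mul_of_nonneg_left (by linarith) (by linarith)
      nlinarith
    have hr : ∀ x ∈ Set.Icc p q, |v (n + j) x - γ (j - i) * v (n + i) x| ≤ τ * v (n + i) x := by
      intro x hx
      have := hR (j - i) (by omega) (by omega) (n + i) x (hsub hx)
      have e7 : n + i + (j - i) = n + j := by omega
      rwa [e7] at this
    have hle : ∀ x ∈ Set.Icc p q, v (n + i) x ≤ v (n + j) x := by
      intro x hx
      have e6 := fam_growth hF hβ0 hββ (n + i) (j - i) (hsub hx)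
      have e7 : n + i + (j - i) = n + j := by omega
      rw [e7] at e6
      have e8 : (1 : ℝ) ≤ β ^ (j - i) := one_le_pow₀ hβ.le
      have e9 := hF.pos (n + i) x (hsub hx)
      nlinarith
    have hdist : ∀ k ≤ L, v (n + k) q ≤ (1 + κ) * v (n + k) p := by
      intro k hk
      refine (hD n (n + k) (by omega) (by omega) p hpI q hqI hpq.le h2).trans ?_
      exact mul_le_mul_of_nonneg_right (by linarith [min_le_left κ 1]) (hF.pos _ p hpI).le
    have := hnear (j - i) (by omega) (by omega) φ K hφ (u (n + i)) (u (n + j)) (v (n + i))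
      (v (n + j)) p q hpq (fun x hx => hF.deriv _ x (hsub hx)) (fun x hx => hF.deriv _ x (hsub hx))
      (fun x hx => hF.pos _ x (hsub hx)) hle ((hF.mono _).mono hsub) ((hF.mono _).mono hsub)
      (hdist i (by omega)) (hdist j (by omega)) hr hlen
    simp only [c]
    rw [abs_div, abs_of_pos hℓ, div_le_iff₀ hℓ]
    exact this
  have hfin := hL₀ L hL c Q hcc hdiag hgen hsmall
  -- expansion of the square
  have hexp : (∫ x in p..q, (∑ j ∈ Finset.Ico n (n + L), φ (u j x)) ^ 2)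
      = (∑ i ∈ range L, ∑ j ∈ range L, c i j) * (q - p) := by
    have e1 : ∀ x, (∑ j ∈ Finset.Ico n (n + L), φ (u j x)) ^ 2
        = ∑ i ∈ range L, ∑ j ∈ range L, φ (u (n + i) x) * φ (u (n + j) x) := by
      intro x
      rw [Finset.sum_Ico_eq_sum_range, Nat.add_sub_cancel_left, sq, Finset.sum_mul_sum]
    simp only [e1]
    have hI2 : ∀ i ∈ range L, IntervalIntegrable
        (fun x => ∑ j ∈ range L, φ (u (n + i) x) * φ (u (n + j) x)) volume p q := by
      intro i _
      apply ContinuousOn.intervalIntegrable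
      exact continuousOn_finsetSum _ fun j _ => (hcomp (n + i)).mul (hcomp (n + j))
    rw [intervalIntegral.integral_finsetSum hI2, Finset.sum_mul]
    apply Finset.sum_congr rfl
    intro i _
    rw [intervalIntegral.integral_finsetSum (fun j _ => hI _ _), Finset.sum_mul]
    apply Finset.sum_congr rfl
    intro j _
    simp only [c]
    field_simp
  rw [hexp]
  have e1 : (∑ i ∈ range L, ∑ j ∈ range L, c i j) * (q - p) - Q * L * (q - p)
      = ((∑ i ∈ range L, ∑ j ∈ range L, c i j) - L * Q) * (q - p) := by ring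
  rw [e1, abs_mul, abs_of_pos hℓ]
  exact mul_le_mul_of_nonneg_right hfin hℓ.le

end Pool.Agent.Helper44.KD
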