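import Pool.Agent.Helper78.KD.Defs

/-! Exponential moments of bounded centred variables. -/

set_option autoImplicit false

open Finset

namespace Pool.Agent.Helper44.KD

theorem exp_three {y δ : ℝ} (hy : |y| ≤ δ) (hδ : δ ≤ 1) :
    |Real.exp y - 1 - y - y ^ 2 / 2| ≤ δ * y ^ 2 / 4 := by
  have h1 := Real.exp_bound (x := y) (hy.trans hδ) (n := 3) (by norm_num)
  have h2 : ∑ m ∈ range 3, y ^ m / (m.factorial : ℝ) = 1 + y + y ^ 2 / 2 := by
    simp [Finset.sum_range_succ, Nat.factorial]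
  rw [h2] at h1
  have h3 : Real.exp y - 1 - y - y ^ 2 / 2 = Real.exp y - (1 + y + y ^ 2 / 2) := by ring
  rw [h3]
  refine h1.trans ?_
  have h4 : |y| ^ 3 = |y| * y ^ 2 := by rw [pow_succ, sq_abs]; ring
  have h5 : |y| * y ^ 2 ≤ δ * y ^ 2 := mul_le_mul_of_nonneg_right hy (sq_nonneg y)
  have h6 : 0 ≤ δ * y ^ 2 := le_trans (mul_nonneg (abs_nonneg y) (sq_nonneg y)) h5
  rw [h4]
  have h7 : ((Nat.succ 3 : ℕ) : ℝ) / ((Nat.factorial 3 : ℕ) * ((3 : ℕ) : ℝ)) ≤ 1 / 4 := by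
    norm_num [Nat.factorial]
  calc |y| * y ^ 2 * (((Nat.succ 3 : ℕ) : ℝ) / ((Nat.factorial 3 : ℕ) * ((3 : ℕ) : ℝ)))
      ≤ (δ * y ^ 2) * (1 / 4) := by
        apply mul_le_mul h5 h7 (by positivity) h6
    _ = δ * y ^ 2 / 4 := by ring

theorem exp_moment {s : Finset ℕ} {w X : ℕ → ℝ} {W B Q ε L θ : ℝ} (hw : ∀ j ∈ s, 0 ≤ w j)
    (hW : ∑ j ∈ s, w j = W) (hW0 : 0 < W)
    (hmean : ∑ j ∈ s, w j * X j = 0) (hB : ∀ j ∈ s, |X j| ≤ B) (hQ0 : 0 ≤ Q) (hQ1 : Q ≤ 1)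
    (hε : 0 < ε) (hε1 : ε ≤ 1)
    (hL : 1 ≤ L) (hvar : |∑ j ∈ s, w j * X j ^ 2 - Q * L * W| ≤ ε * L * W) (hθ : |θ| * B ≤ ε / 8)
    (hBL : L ≤ B) :
    W * Real.exp ((Q - 2 * ε) * θ ^ 2 * L / 2) ≤ ∑ j ∈ s, w j * Real.exp (θ * X j) ∧
    ∑ j ∈ s, w j * Real.exp (θ * X j) ≤ W * Real.exp ((Q + 2 * ε) * θ ^ 2 * L / 2) := by
  set S := ∑ j ∈ s, w j * X j ^ 2 with hS
  have hv := abs_le.1 hvar
  have hLW : 0 < L * W := mul_pos (by linarith) hW0
  have hS0 : 0 ≤ S := Finset.sum_nonneg fun j hj => mul_nonneg (hw j hj) (sq_nonneg _)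
  have hterm : ∀ j ∈ s, |w j * Real.exp (θ * X j) - (w j + θ * (w j * X j)
      + θ ^ 2 / 2 * (w j * X j ^ 2))| ≤ ε / 32 * θ ^ 2 * (w j * X j ^ 2) := by
    intro j hj
    have h1 : |θ * X j| ≤ ε / 8 := by
      rw [abs_mul]
      exact (mul_le_mul_of_nonneg_left (hB j hj) (abs_nonneg θ)).trans hθ
    have h2 := exp_three h1 (by linarith)
    have h3 : w j * Real.exp (θ * X j) - (w j + θ * (w j * X j) + θ ^ 2 / 2 * (w j * X j ^ 2))
        = w j * (Real.exp (θ * X j) - 1 - θ * X j - (θ * X j) ^ 2 / 2) := by ring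
    rw [h3, abs_mul, abs_of_nonneg (hw j hj)]
    calc w j * |Real.exp (θ * X j) - 1 - θ * X j - (θ * X j) ^ 2 / 2|
        ≤ w j * (ε / 8 * (θ * X j) ^ 2 / 4) := mul_le_mul_of_nonneg_left h2 (hw j hj)
      _ = ε / 32 * θ ^ 2 * (w j * X j ^ 2) := by ring
  have hsum : |∑ j ∈ s, w j * Real.exp (θ * X j) - (W + θ ^ 2 / 2 * S)|
      ≤ ε / 32 * θ ^ 2 * S := by
    have e1 : ∑ j ∈ s, w j * Real.exp (θ * X j) - (W + θ ^ 2 / 2 * S)
        = ∑ j ∈ s, (w j * Real.exp (θ * X j) - (w j + θ * (w j * X j)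
          + θ ^ 2 / 2 * (w j * X j ^ 2))) := by
      rw [Finset.sum_sub_distrib, Finset.sum_add_distrib, Finset.sum_add_distrib,
        ← Finset.mul_sum, ← Finset.mul_sum, hmean, hW]
      simp only [mul_zero, add_zero]
      rfl
    rw [e1, hS, Finset.mul_sum]
    exact (Finset.abs_sum_le_sum_abs _ _).trans (Finset.sum_le_sum hterm)
  have hs := abs_le.1 hsum
  set E := ∑ j ∈ s, w j * Real.exp (θ * X j) with hE
  have hθ0 : 0 ≤ θ ^ 2 := sq_nonneg θ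
  -- size of θ² L
  have hθL : θ ^ 2 * L ≤ ε / 64 := by
    have hB1 : 1 ≤ B := hL.trans hBL
    have h1 : θ ^ 2 * L ≤ (|θ| * B) * (|θ| * B) := by
      have : θ ^ 2 = |θ| * |θ| := by rw [← sq, sq_abs]
      rw [this]
      have h2 : 0 ≤ |θ| * |θ| := mul_nonneg (abs_nonneg _) (abs_nonneg _)
      have h3 : L ≤ B * B := by nlinarith
      calc |θ| * |θ| * L ≤ |θ| * |θ| * (B * B) := mul_le_mul_of_nonneg_left h3 h2
        _ = (|θ| * B) * (|θ| * B) := by ring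
    have h2 : 0 ≤ |θ| * B := mul_nonneg (abs_nonneg _) (by linarith)
    have h3 : (|θ| * B) * (|θ| * B) ≤ (ε / 8) * (ε / 8) :=
      mul_le_mul hθ hθ h2 (by positivity)
    nlinarith
  have hθL0 : 0 ≤ θ ^ 2 * L := mul_nonneg hθ0 (by linarith)
  have hθS : 0 ≤ θ ^ 2 * S := mul_nonneg hθ0 hS0
  constructor
  · -- lower bound
    rcases le_or_gt (Q - 2 * ε) 0 with hq | hq
    · have h1 : Real.exp ((Q - 2 * ε) * θ ^ 2 * L / 2) ≤ 1 := by
        apply Real.exp_le_one_iff.2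
        have : (Q - 2 * ε) * θ ^ 2 * L / 2 = (Q - 2 * ε) * (θ ^ 2 * L) / 2 := by ring
        rw [this]
        have := mul_nonpos_of_nonpos_of_nonneg hq hθL0
        linarith
      have h2 : W ≤ E := by
        have e1 : ε / 32 * θ ^ 2 * S ≤ θ ^ 2 / 2 * S := by nlinarith
        linarith [hs.1]
      calc W * Real.exp ((Q - 2 * ε) * θ ^ 2 * L / 2) ≤ W * 1 :=
            mul_le_mul_of_nonneg_left h1 hW0.le
        _ ≤ E := by linarith
    · set y := (Q - 2 * ε) * θ ^ 2 * L / 2 with hy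
      have hy0 : 0 ≤ y := by
        have : y = (Q - 2 * ε) * (θ ^ 2 * L) / 2 := by rw [hy]; ring
        rw [this]; positivity
      have hy1 : y ≤ ε / 128 := by
        have : y = (Q - 2 * ε) * (θ ^ 2 * L) / 2 := by rw [hy]; ring
        rw [this]
        have : (Q - 2 * ε) * (θ ^ 2 * L) ≤ 1 * (ε / 64) :=
          mul_le_mul (by linarith) hθL hθL0 (by norm_num)
        linarith
      have h1 := Real.abs_exp_sub_one_sub_id_le (x := y) (by
        rw [abs_of_nonneg hy0]; linarith)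
      have h2 : Real.exp y ≤ 1 + y + y ^ 2 := by linarith [(abs_le.1 h1).2]
      have h3 : y ^ 2 ≤ y * (ε / 128) := by
        rw [sq]; exact mul_le_mul_of_nonneg_left hy1 hy0
      have h4 : W * Real.exp y ≤ W * (1 + y * (1 + ε / 128)) :=
        mul_le_mul_of_nonneg_left (by linarith) hW0.le
      refine h4.trans ?_
      have h5 : (Q - ε) * L * W ≤ S := by
        have e0 : (Q - ε) * L * W = Q * L * W - ε * L * W := by ring
        rw [e0]; linarith [hv.1]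
      have h6 : θ ^ 2 * (1 / 2 - ε / 32) * ((Q - ε) * L * W)
          ≤ θ ^ 2 * (1 / 2 - ε / 32) * S :=
        mul_le_mul_of_nonneg_left h5 (mul_nonneg hθ0 (by linarith))
      have h7 : W + θ ^ 2 * (1 / 2 - ε / 32) * S ≤ E := by
        have e0 : θ ^ 2 * (1 / 2 - ε / 32) * S = θ ^ 2 / 2 * S - ε / 32 * θ ^ 2 * S := by ring
        rw [e0]; linarith [hs.1]
      have h8 : W * (y * (1 + ε / 128)) ≤ θ ^ 2 * (1 / 2 - ε / 32) * ((Q - ε) * L * W) := by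
        have e1 : W * (y * (1 + ε / 128))
            = (θ ^ 2 * L * W) * ((Q - 2 * ε) / 2 * (1 + ε / 128)) := by rw [hy]; ring
        have e2 : θ ^ 2 * (1 / 2 - ε / 32) * ((Q - ε) * L * W)
            = (θ ^ 2 * L * W) * ((1 / 2 - ε / 32) * (Q - ε)) := by ring
        rw [e1, e2]
        apply mul_le_mul_of_nonneg_left _ (mul_nonneg hθL0 hW0.le)
        nlinarith
      linarith
  · -- upper bound
    have h5 : S ≤ (Q + ε) * L * W := by
      have e0 : (Q + ε) * L * W = Q * L * W + ε * L * W := by ring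
      rw [e0]; linarith [hv.2]
    have h6 : θ ^ 2 * (1 / 2 + ε / 32) * S ≤ θ ^ 2 * (1 / 2 + ε / 32) * ((Q + ε) * L * W) :=
      mul_le_mul_of_nonneg_left h5 (mul_nonneg hθ0 (by linarith))
    have h7 : E ≤ W + θ ^ 2 * (1 / 2 + ε / 32) * S := by
      have e0 : θ ^ 2 * (1 / 2 + ε / 32) * S = θ ^ 2 / 2 * S + ε / 32 * θ ^ 2 * S := by ring
      rw [e0]; linarith [hs.2]
    have h8 : θ ^ 2 * (1 / 2 + ε / 32) * ((Q + ε) * L * W)
        ≤ W * ((Q + 2 * ε) * θ ^ 2 * L / 2) := by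
      have e1 : W * ((Q + 2 * ε) * θ ^ 2 * L / 2) = (θ ^ 2 * L * W) * ((Q + 2 * ε) / 2) := by ring
      have e2 : θ ^ 2 * (1 / 2 + ε / 32) * ((Q + ε) * L * W)
          = (θ ^ 2 * L * W) * ((1 / 2 + ε / 32) * (Q + ε)) := by ring
      rw [e1, e2]
      apply mul_le_mul_of_nonneg_left _ (mul_nonneg hθL0 hW0.le)
      nlinarith
    have h9 := Real.add_one_le_exp ((Q + 2 * ε) * θ ^ 2 * L / 2)
    have h10 := mul_le_mul_of_nonneg_left h9 hW0.le
    linarith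

end Pool.Agent.Helper44.KD
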