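import Pool.Agent.Helper44.TX.Pert
import Pool.Agent.Helper78.KD.Defs

/-! The covariance of two members of a family at a small lag. -/

set_option autoImplicit false

open Finset MeasureTheory

namespace Pool.Agent.Helper44.KD

open H44TX

theorem lift_of {s : ℝ → ℝ} (h : Pool.Agent.Helper78.KD.IsLift s) : IsLift s := ⟨h.1, h.2⟩

theorem lift_convex {s : ℝ → ℝ} (hs : IsLift s) {l : ℝ} (h0 : 0 ≤ l) (h1 : l ≤ 1) :
    IsLift fun t => l * s t + (1 - l) * t := by
  constructor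
  · intro x y hxy
    have e1 := mul_le_mul_of_nonneg_left (hs.mono hxy) h0
    have e2 := mul_le_mul_of_nonneg_left hxy (show 0 ≤ 1 - l by linarith)
    simp only
    linarith
  · intro t
    simp only [hs.add_one]
    ring

/-- Test functions, divided by `max 1 V`, are in my class. -/
theorem isBV_of_cls {φ : ℝ → ℝ} {V K : ℝ} (h : Pool.Agent.Helper78.KD.Cls φ V K) :
    IsBV fun t => φ t / max 1 V := by
  obtain ⟨s₁, s₂, l1, l2, c, hc⟩ := h.lift
  set M := max 1 V with hM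
  have hM1 : 1 ≤ M := le_max_left _ _
  have hM0 : 0 < M := by linarith
  have hV : V ≤ M := le_max_right _ _
  have hl0 : 0 ≤ V / M := div_nonneg h.hV hM0.le
  have hl1 : V / M ≤ 1 := (div_le_one hM0).2 hV
  refine ⟨⟨_, _, lift_convex (lift_of l1) hl0 hl1, lift_convex (lift_of l2) hl0 hl1, -(c / M),
    ?_⟩, ?_, ?_⟩
  · intro t
    rw [hc]
    field_simp
    ring
  · intro t
    rw [abs_div, abs_of_pos hM0, div_le_one hM0]
    exact (h.bd t).trans hM1
  · rw [intervalIntegral.integral_div, h.mean, zero_div]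

theorem cls_cont {φ : ℝ → ℝ} {V K : ℝ} (h : Pool.Agent.Helper78.KD.Cls φ V K) : Continuous φ := by
  have hK : 0 ≤ K := by linarith [h.hK]
  have : LipschitzWith ⟨K, hK⟩ φ := LipschitzWith.of_dist_le_mul fun x y => by
    rw [Real.dist_eq, Real.dist_eq]
    exact h.lip x y
  exact this.continuous

theorem near_piece {g : ℝ} (hg : Irrational g) {V ε : ℝ} (hε : 0 < ε) :
    ∃ τ κ T₀ : ℝ, 0 < τ ∧ 0 < κ ∧ 1 ≤ T₀ ∧ ∀ (φ : ℝ → ℝ) (K : ℝ),
      Pool.Agent.Helper78.KD.Cls φ V K → ∀ (U W U' W' : ℝ → ℝ) (p q : ℝ), p < q →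
      (∀ x ∈ Set.Icc p q, HasDerivAt U (U' x) x) → (∀ x ∈ Set.Icc p q, HasDerivAt W (W' x) x) →
      (∀ x ∈ Set.Icc p q, 0 < U' x) → (∀ x ∈ Set.Icc p q, U' x ≤ W' x) →
      MonotoneOn U' (Set.Icc p q) → MonotoneOn W' (Set.Icc p q) →
      U' q ≤ (1 + κ) * U' p → W' q ≤ (1 + κ) * W' p →
      (∀ x ∈ Set.Icc p q, |W' x - g * U' x| ≤ τ * U' x) →
      T₀ ≤ U q - U p → U q - U p ≤ 2 * T₀ →
      |∫ x in p..q, φ (U x) * φ (W x)| ≤ ε * (q - p) := by
  set M := max 1 V with hM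
  have hM1 : 1 ≤ M := le_max_left _ _
  have hM0 : 0 < M := by linarith
  obtain ⟨τ₁, hτ₁, T₁, hnear⟩ := near_bound hg (show (0 : ℝ) < ε / (2 * M ^ 2) by positivity)
  set T₀ : ℝ := max 2 (2 * T₁) with hT₀
  have hT2 : 2 ≤ T₀ := le_max_left _ _
  have hTT : 2 * T₁ ≤ T₀ := le_max_right _ _
  have hT0 : 0 < T₀ := by linarith
  set G : ℝ := |g| + 2 with hG
  have hG0 : 0 < G := by have := abs_nonneg g; rw [hG]; linarith
  set κ : ℝ := min 1 (ε / (64 * M ^ 2 * T₀ * G)) with hκ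
  have hκ0 : 0 < κ := lt_min one_pos (by positivity)
  have hκ1 : κ ≤ 1 := min_le_left _ _
  have hκ2 : κ * (64 * M ^ 2 * T₀ * G) ≤ ε := by
    have := min_le_right 1 (ε / (64 * M ^ 2 * T₀ * G))
    rwa [← hκ, le_div_iff₀ (by positivity)] at this
  refine ⟨min 1 τ₁, κ, T₀, lt_min one_pos hτ₁, hκ0, by linarith, ?_⟩
  intro φ K hφ U W U' W' p q hpq hU hW hU0 hUW hUm hWm hUq hWq hr hT1 hT3
  have hψ := isBV_of_cls hφ
  rw [← hM] at hψ
  set ψ : ℝ → ℝ := fun t => φ t / M with hψd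
  set ℓ := q - p with hℓ
  have hℓ0 : 0 < ℓ := by rw [hℓ]; linarith
  have hp : p ∈ Set.Icc p q := ⟨le_rfl, hpq.le⟩
  have hq : q ∈ Set.Icc p q := ⟨hpq.le, le_rfl⟩
  have hUp := hU0 p hp
  have hWp : 0 < W' p := lt_of_lt_of_le hUp (hUW p hp)
  -- increments
  have hincr : ∀ (F F' : ℝ → ℝ), (∀ x ∈ Set.Icc p q, HasDerivAt F (F' x) x) →
      MonotoneOn F' (Set.Icc p q) → ∀ y ∈ Set.Icc 0 ℓ,
      F' p * y ≤ F (p + y) - F p ∧ F (p + y) - F p ≤ F' q * y := by
    intro F F' hF hm y hy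
    rcases eq_or_lt_of_le hy.1 with h | h
    · rw [← h]; simp
    · have hyq : p + y ≤ q := by rw [hℓ] at hy; linarith [hy.2]
      have hsub : Set.Icc p (p + y) ⊆ Set.Icc p q := Set.Icc_subset_Icc_right hyq
      obtain ⟨c, hc, hc2⟩ := exists_hasDerivAt_eq_slope F F' (show p < p + y by linarith)
        (fun x hx => (hF x (hsub hx)).continuousAt.continuousWithinAt)
        (fun x hx => hF x (hsub (Set.Ioo_subset_Icc_self hx)))
      have e1 : p + y - p = y := by ring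
      rw [e1, eq_div_iff h.ne'] at hc2
      have hcI : c ∈ Set.Icc p q := hsub (Set.Ioo_subset_Icc_self hc)
      have m1 := hm hp hcI hc.1.le
      have m2 := hm hcI hq hcI.2
      rw [← hc2]
      exact ⟨mul_le_mul_of_nonneg_right m1 h.le, mul_le_mul_of_nonneg_right m2 h.le⟩
  have hUi := hincr U U' hU hUm
  have hWi := hincr W W' hW hWm
  have hUlen : U' p * ℓ ≤ 2 * T₀ := by
    have := (hUi ℓ ⟨hℓ0.le, le_rfl⟩).1
    have e1 : p + ℓ = q := by rw [hℓ]; ring
    rw [e1] at this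
    linarith
  have hUlen2 : T₀ / 2 ≤ U' p * ℓ := by
    have := (hUi ℓ ⟨hℓ0.le, le_rfl⟩).2
    have e1 : p + ℓ = q := by rw [hℓ]; ring
    rw [e1] at this
    have h2 : U' q * ℓ ≤ (1 + κ) * U' p * ℓ := mul_le_mul_of_nonneg_right hUq hℓ0.le
    have h3 : (1 + κ) * U' p * ℓ ≤ 2 * (U' p * ℓ) := by
      have : 0 < U' p * ℓ := by positivity
      nlinarith
    linarith
  have hWU : W' p ≤ (|g| + 1) * U' p := by
    have h1 := (abs_le.1 (hr p hp)).2
    have h2 : min 1 τ₁ * U' p ≤ 1 * U' p := mul_le_mul_of_nonneg_right (min_le_left _ _) hUp.le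
    have h3 : g * U' p ≤ |g| * U' p := mul_le_mul_of_nonneg_right (le_abs_self g) hUp.le
    linarith
  -- closeness
  have hUc : ∀ y ∈ Set.Icc 0 ℓ, |U (p + y) - (U p + U' p * y)| ≤ κ * (2 * T₀) := by
    intro y hy
    have h1 := hUi y hy
    have h2 : U' q * y ≤ (1 + κ) * U' p * y := mul_le_mul_of_nonneg_right hUq hy.1
    have h3 : U' p * y ≤ U' p * ℓ := mul_le_mul_of_nonneg_left hy.2 hUp.le
    have h4 : κ * (U' p * y) ≤ κ * (2 * T₀) := mul_le_mul_of_nonneg_left (h3.trans hUlen) hκ0.le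
    rw [abs_le]
    constructor <;> nlinarith [h1.1, h1.2]
  have hWc : ∀ y ∈ Set.Icc 0 ℓ, |W (p + y) - (W p + W' p * y)| ≤ κ * ((|g| + 1) * (2 * T₀)) := by
    intro y hy
    have h1 := hWi y hy
    have h2 : W' q * y ≤ (1 + κ) * W' p * y := mul_le_mul_of_nonneg_right hWq hy.1
    have h3 : W' p * y ≤ (|g| + 1) * (2 * T₀) := by
      calc W' p * y ≤ W' p * ℓ := mul_le_mul_of_nonneg_left hy.2 hWp.le
        _ ≤ (|g| + 1) * U' p * ℓ := mul_le_mul_of_nonneg_right hWU hℓ0.le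
        _ = (|g| + 1) * (U' p * ℓ) := by ring
        _ ≤ (|g| + 1) * (2 * T₀) := mul_le_mul_of_nonneg_left hUlen (by positivity)
    have h4 : κ * (W' p * y) ≤ κ * ((|g| + 1) * (2 * T₀)) := mul_le_mul_of_nonneg_left h3 hκ0.le
    have h5 : 0 ≤ κ * ((|g| + 1) * (2 * T₀)) := by positivity
    rw [abs_le]
    constructor <;> nlinarith [h1.1, h1.2]
  -- integrability
  have hφc := cls_cont hφ
  have hψc : Continuous ψ := hφc.div_const M
  have hshift : ∀ F : ℝ → ℝ, (∀ x ∈ Set.Icc p q, ContinuousAt F x) →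
      ContinuousOn (fun y => F (p + y)) (Set.uIcc 0 ℓ) := by
    intro F hF y hy
    rw [Set.uIcc_of_le hℓ0.le] at hy
    have hx : p + y ∈ Set.Icc p q := ⟨by linarith [hy.1], by rw [hℓ] at hy; linarith [hy.2]⟩
    exact (ContinuousAt.comp (f := fun y => p + y) (g := F) (hF _ hx)
      (continuous_const.add continuous_id).continuousAt).continuousWithinAt
  have cU := hshift U (fun x hx => (hU x hx).continuousAt)
  have cW := hshift W (fun x hx => (hW x hx).continuousAt)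
  have iU : IntervalIntegrable (fun y => ψ (U (p + y))) volume 0 ℓ :=
    (hψc.comp_continuousOn cU).intervalIntegrable
  have iW : IntervalIntegrable (fun y => ψ (W (p + y))) volume 0 ℓ :=
    (hψc.comp_continuousOn cW).intervalIntegrable
  have iUW : IntervalIntegrable (fun y => ψ (U (p + y)) * ψ (W (p + y))) volume 0 ℓ :=
    ((hψc.comp_continuousOn cU).mul (hψc.comp_continuousOn cW)).intervalIntegrable
  have iA : IntervalIntegrable (fun y => ψ (U p + U' p * y)) volume 0 ℓ :=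
    (hψc.comp (by fun_prop)).intervalIntegrable _ _
  have iB : IntervalIntegrable (fun y => ψ (W p + W' p * y)) volume 0 ℓ :=
    (hψc.comp (by fun_prop)).intervalIntegrable _ _
  have iAB : IntervalIntegrable (fun y => ψ (U p + U' p * y) * ψ (W p + W' p * y)) volume 0 ℓ :=
    ((hψc.comp (by fun_prop : Continuous fun y : ℝ => U p + U' p * y)).mul
      (hψc.comp (by fun_prop : Continuous fun y : ℝ => W p + W' p * y))).intervalIntegrable _ _
  -- main term
  have hratio : |W' p / U' p - g| ≤ τ₁ := by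
    have h1 : W' p / U' p - g = (W' p - g * U' p) / U' p := by field_simp
    rw [h1, abs_div, abs_of_pos hUp, div_le_iff₀ hUp]
    exact (hr p hp).trans (mul_le_mul_of_nonneg_right (min_le_right _ _) hUp.le)
  have hmain := hnear ψ hψ (U p) (U' p) (W p) (W' p) ℓ hUp hℓ0 hratio (by linarith)
  rw [abs_div, abs_of_pos hℓ0, div_le_iff₀ hℓ0] at hmain
  -- perturbations
  have h1U : 1 ≤ U' p * ℓ := by linarith
  have h1W : 1 ≤ W' p * ℓ := h1U.trans (mul_le_mul_of_nonneg_right (hUW p hp) hℓ0.le)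
  have pU := pert_avg hψ (u := fun y => U (p + y)) (U p) (U' p) ℓ _ iU hUp hℓ0 h1U
    (by positivity : (0 : ℝ) ≤ κ * (2 * T₀)) hUc
  have pW := pert_avg hψ (u := fun y => W (p + y)) (W p) (W' p) ℓ _ iW hWp hℓ0 h1W
    (by positivity : (0 : ℝ) ≤ κ * ((|g| + 1) * (2 * T₀))) hWc
  rw [div_le_iff₀ hℓ0] at pU pW
  have hdiff : |(∫ y in (0 : ℝ)..ℓ, ψ (U (p + y)) * ψ (W (p + y)))
      - ∫ y in (0 : ℝ)..ℓ, ψ (U p + U' p * y) * ψ (W p + W' p * y)|
      ≤ (∫ y in (0 : ℝ)..ℓ, |ψ (U (p + y)) - ψ (U p + U' p * y)|)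
        + ∫ y in (0 : ℝ)..ℓ, |ψ (W (p + y)) - ψ (W p + W' p * y)| := by
    rw [← intervalIntegral.integral_sub iUW iAB,
      ← intervalIntegral.integral_add (iU.sub iA).abs (iW.sub iB).abs]
    refine (intervalIntegral.abs_integral_le_integral_abs hℓ0.le).trans ?_
    apply intervalIntegral.integral_mono_on hℓ0.le (iUW.sub iAB).abs
      ((iU.sub iA).abs.add (iW.sub iB).abs)
    intro y _
    have e1 : ψ (U (p + y)) * ψ (W (p + y)) - ψ (U p + U' p * y) * ψ (W p + W' p * y)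
        = (ψ (U (p + y)) - ψ (U p + U' p * y)) * ψ (W (p + y))
          + ψ (U p + U' p * y) * (ψ (W (p + y)) - ψ (W p + W' p * y)) := by ring
    rw [e1]
    refine (abs_add_le _ _).trans (add_le_add ?_ ?_)
    · rw [abs_mul]
      calc _ ≤ |ψ (U (p + y)) - ψ (U p + U' p * y)| * 1 :=
            mul_le_mul_of_nonneg_left (hψ.bdd _) (abs_nonneg _)
        _ = _ := mul_one _
    · rw [abs_mul]
      calc _ ≤ 1 * |ψ (W (p + y)) - ψ (W p + W' p * y)| :=
            mul_le_mul_of_nonneg_right (hψ.bdd _) (abs_nonneg _)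
        _ = _ := one_mul _
  have htot : |∫ y in (0 : ℝ)..ℓ, ψ (U (p + y)) * ψ (W (p + y))| ≤ ε / M ^ 2 * ℓ := by
    have e1 : (∫ y in (0 : ℝ)..ℓ, ψ (U (p + y)) * ψ (W (p + y)))
        = (∫ y in (0 : ℝ)..ℓ, ψ (U p + U' p * y) * ψ (W p + W' p * y))
          + ((∫ y in (0 : ℝ)..ℓ, ψ (U (p + y)) * ψ (W (p + y)))
          - ∫ y in (0 : ℝ)..ℓ, ψ (U p + U' p * y) * ψ (W p + W' p * y)) := by ring
    rw [e1]
    refine (abs_add_le _ _).trans ?_
    have h5 : 8 * (κ * (2 * T₀)) + 8 * (κ * ((|g| + 1) * (2 * T₀))) ≤ ε / (2 * M ^ 2) := by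
      rw [le_div_iff₀ (by positivity)]
      have : (8 * (κ * (2 * T₀)) + 8 * (κ * ((|g| + 1) * (2 * T₀)))) * (2 * M ^ 2)
          = (κ * (64 * M ^ 2 * T₀ * G)) / 2 := by
        rw [hG]; ring
      rw [this]
      linarith
    have h6 : ε / M ^ 2 * ℓ = ε / (2 * M ^ 2) * ℓ + ε / (2 * M ^ 2) * ℓ := by
      field_simp; ring
    have h7 := mul_le_mul_of_nonneg_right h5 hℓ0.le
    rw [h6]
    linarith
  -- conclusion
  have hfin : ∫ x in p..q, φ (U x) * φ (W x)
      = M ^ 2 * ∫ y in (0 : ℝ)..ℓ, ψ (U (p + y)) * ψ (W (p + y)) := by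
    have h1 : ∫ y in (0 : ℝ)..ℓ, φ (U (p + y)) * φ (W (p + y)) = ∫ x in p..q, φ (U x) * φ (W x) := by
      have := intervalIntegral.integral_comp_add_left (a := 0) (b := ℓ)
        (fun x => φ (U x) * φ (W x)) p
      rw [this]
      congr 1
      · ring
      · rw [hℓ]; ring
    rw [← h1, ← intervalIntegral.integral_const_mul]
    congr 1
    funext y
    simp only [hψd]
    field_simp
  rw [hfin, abs_mul, abs_of_pos (by positivity : (0 : ℝ) < M ^ 2)]
  calc M ^ 2 * |∫ y in (0 : ℝ)..ℓ, ψ (U (p + y)) * ψ (W (p + y))| ≤ M ^ 2 * (ε / M ^ 2 * ℓ) :=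
        mul_le_mul_of_nonneg_left htot (by positivity)
    _ = ε * ℓ := by field_simp

end Pool.Agent.Helper44.KD
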