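import Pool.Agent.Helper44.KD.Near

/-! The covariance at a small lag on long intervals. -/

set_option autoImplicit false

open Finset MeasureTheory

namespace Pool.Agent.Helper44.KD

open H44TX

theorem near_fam {g : ℝ} (hg : Irrational g) {V ε : ℝ} (hε : 0 < ε) :
    ∃ τ κ T₀ : ℝ, 0 < τ ∧ 0 < κ ∧ 1 ≤ T₀ ∧ ∀ (φ : ℝ → ℝ) (K : ℝ),
      Pool.Agent.Helper78.KD.Cls φ V K → ∀ (U W U' W' : ℝ → ℝ) (p q : ℝ), p < q →
      (∀ x ∈ Set.Icc p q, HasDerivAt U (U' x) x) → (∀ x ∈ Set.Icc p q, HasDerivAt W (W' x) x) →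
      (∀ x ∈ Set.Icc p q, 0 < U' x) → (∀ x ∈ Set.Icc p q, U' x ≤ W' x) →
      MonotoneOn U' (Set.Icc p q) → MonotoneOn W' (Set.Icc p q) →
      U' q ≤ (1 + κ) * U' p → W' q ≤ (1 + κ) * W' p →
      (∀ x ∈ Set.Icc p q, |W' x - g * U' x| ≤ τ * U' x) →
      T₀ ≤ U q - U p →
      |∫ x in p..q, φ (U x) * φ (W x)| ≤ ε * (q - p) := by
  obtain ⟨τ, κ, T₀, hτ, hκ, hT, H⟩ := near_piece (V := V) hg hε
  refine ⟨τ, κ, T₀, hτ, hκ, hT, ?_⟩
  intro φ K hφ U W U' W' p q hpq hU hW hU0 hUW hUm hWm hUq hWq hr hT1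
  have hT0 : 0 < T₀ := by linarith
  set R := U q - U p with hR
  have hR0 : 0 < R := by linarith
  set m : ℕ := ⌊R / T₀⌋₊ with hm
  have hm1 : 1 ≤ m := Nat.le_floor (by
    rw [Nat.cast_one, le_div_iff₀ hT0]; linarith)
  have hm0 : (0 : ℝ) < m := by exact_mod_cast hm1
  have hm2 : (m : ℝ) ≤ R / T₀ := Nat.floor_le (by positivity)
  have hm3 : R / T₀ < m + 1 := Nat.lt_floor_add_one _
  rw [le_div_iff₀ hT0] at hm2
  rw [div_lt_iff₀ hT0] at hm3
  set T := R / m with hTd
  have hTl : T₀ ≤ T := by rw [hTd, le_div_iff₀ hm0]; linarith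
  have hTu : T ≤ 2 * T₀ := by
    rw [hTd, div_le_iff₀ hm0]
    have h1 : (1 : ℝ) ≤ m := by exact_mod_cast hm1
    nlinarith
  have hTpos : 0 < T := by linarith
  have hmT : (m : ℝ) * T = R := by rw [hTd]; field_simp
  have hcU : ContinuousOn U (Set.Icc p q) := fun x hx => (hU x hx).continuousAt.continuousWithinAt
  have hcW : ContinuousOn W (Set.Icc p q) := fun x hx => (hW x hx).continuousAt.continuousWithinAt
  have hmono : StrictMonoOn U (Set.Icc p q) := by
    apply strictMonoOn_of_deriv_pos (convex_Icc p q) hcU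
    intro x hx
    rw [interior_Icc] at hx
    have hx' := Set.Ioo_subset_Icc_self hx
    rw [(hU x hx').deriv]
    exact hU0 x hx'
  have hex : ∀ k : ℕ, ∃ x : ℝ, k ≤ m → x ∈ Set.Icc p q ∧ U x = U p + k * T := by
    intro k
    by_cases hk : k ≤ m
    · have hk' : (k : ℝ) ≤ m := by exact_mod_cast hk
      have h1 : U p + k * T ∈ Set.Icc (U p) (U q) := by
        constructor
        · have : (0 : ℝ) ≤ k * T := by positivity
          linarith
        · have : (k : ℝ) * T ≤ m * T := mul_le_mul_of_nonneg_right hk' hTpos.le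
          linarith
      obtain ⟨x, hx, hx2⟩ := intermediate_value_Icc hpq.le hcU h1
      exact ⟨x, fun _ => ⟨hx, hx2⟩⟩
    · exact ⟨0, fun h => absurd h hk⟩
  choose y hy using hex
  have hp : p ∈ Set.Icc p q := ⟨le_rfl, hpq.le⟩
  have hq : q ∈ Set.Icc p q := ⟨hpq.le, le_rfl⟩
  have hy0 : y 0 = p := by
    have := hy 0 (Nat.zero_le _)
    apply hmono.injOn this.1 hp
    rw [this.2]; simp
  have hym : y m = q := by
    have := hy m le_rfl
    apply hmono.injOn this.1 hq
    rw [this.2, hmT]; rw [hR]; ring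
  have hylt : ∀ k, k + 1 ≤ m → y k < y (k + 1) := by
    intro k hk
    have h1 := hy k (by omega)
    have h2 := hy (k + 1) hk
    rw [← hmono.lt_iff_lt h1.1 h2.1, h1.2, h2.2]
    push_cast
    linarith
  have hφc := cls_cont hφ
  have hint : ∀ k < m, IntervalIntegrable (fun x => φ (U x) * φ (W x)) volume (y k)
      (y (k + 1)) := by
    intro k hk
    have h1 := (hy k (by omega)).1
    have h2 := (hy (k + 1) hk).1
    have hsub : Set.uIcc (y k) (y (k + 1)) ⊆ Set.Icc p q := by
      rw [Set.uIcc_of_le (hylt k hk).le]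
      exact Set.Icc_subset_Icc h1.1 h2.2
    exact (((hφc.comp_continuousOn (hcU.mono hsub)).mul
      (hφc.comp_continuousOn (hcW.mono hsub)))).intervalIntegrable
  have hsum : ∫ x in p..q, φ (U x) * φ (W x)
      = ∑ k ∈ range m, ∫ x in (y k)..(y (k + 1)), φ (U x) * φ (W x) := by
    rw [intervalIntegral.sum_integral_adjacent_intervals hint, hy0, hym]
  have hpiece : ∀ k ∈ range m, |∫ x in (y k)..(y (k + 1)), φ (U x) * φ (W x)|
      ≤ ε * (y (k + 1) - y k) := by
    intro k hk
    have hk' := Finset.mem_range.1 hk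
    have h1 := hy k (by omega)
    have h2 := hy (k + 1) hk'
    have hlt := hylt k hk'
    have hsub : Set.Icc (y k) (y (k + 1)) ⊆ Set.Icc p q := Set.Icc_subset_Icc h1.1.1 h2.1.2
    have hd : U (y (k + 1)) - U (y k) = T := by
      rw [h1.2, h2.2]; push_cast; ring
    have hrU : U' (y (k + 1)) ≤ (1 + κ) * U' (y k) := by
      have a1 := hUm h2.1 hq h2.1.2
      have a2 := hUm hp h1.1 h1.1.1
      have a3 : (1 + κ) * U' p ≤ (1 + κ) * U' (y k) := mul_le_mul_of_nonneg_left a2 (by linarith)
      linarith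
    have hrW : W' (y (k + 1)) ≤ (1 + κ) * W' (y k) := by
      have a1 := hWm h2.1 hq h2.1.2
      have a2 := hWm hp h1.1 h1.1.1
      have a3 : (1 + κ) * W' p ≤ (1 + κ) * W' (y k) := mul_le_mul_of_nonneg_left a2 (by linarith)
      linarith
    exact H φ K hφ U W U' W' (y k) (y (k + 1)) hlt (fun x hx => hU x (hsub hx))
      (fun x hx => hW x (hsub hx)) (fun x hx => hU0 x (hsub hx)) (fun x hx => hUW x (hsub hx))
      (hUm.mono hsub) (hWm.mono hsub) hrU hrW (fun x hx => hr x (hsub hx)) (by rw [hd]; exact hTl)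
      (by rw [hd]; exact hTu)
  rw [hsum]
  refine (Finset.abs_sum_le_sum_abs _ _).trans ((Finset.sum_le_sum hpiece).trans ?_)
  rw [← Finset.mul_sum, Finset.sum_range_sub, hy0, hym]

/-- uniformity in finitely many lags -/
theorem near_lags {γ : ℕ → ℝ} (hγ : ∀ d, 1 ≤ d → Irrational (γ d)) {V ε : ℝ} (hε : 0 < ε)
    (D : ℕ) :
    ∃ τ κ T₀ : ℝ, 0 < τ ∧ 0 < κ ∧ 1 ≤ T₀ ∧ ∀ d, 1 ≤ d → d ≤ D → ∀ (φ : ℝ → ℝ) (K : ℝ),
      Pool.Agent.Helper78.KD.Cls φ V K → ∀ (U W U' W' : ℝ → ℝ) (p q : ℝ), p < q →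
      (∀ x ∈ Set.Icc p q, HasDerivAt U (U' x) x) → (∀ x ∈ Set.Icc p q, HasDerivAt W (W' x) x) →
      (∀ x ∈ Set.Icc p q, 0 < U' x) → (∀ x ∈ Set.Icc p q, U' x ≤ W' x) →
      MonotoneOn U' (Set.Icc p q) → MonotoneOn W' (Set.Icc p q) →
      U' q ≤ (1 + κ) * U' p → W' q ≤ (1 + κ) * W' p →
      (∀ x ∈ Set.Icc p q, |W' x - γ d * U' x| ≤ τ * U' x) →
      T₀ ≤ U q - U p →
      |∫ x in p..q, φ (U x) * φ (W x)| ≤ ε * (q - p) := by
  induction D with
  | zero => exact ⟨1, 1, 1, one_pos, one_pos, le_rfl, fun d h1 h2 => by omega⟩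
  | succ D ih =>
    obtain ⟨τ, κ, T₀, hτ, hκ, hT, H⟩ := ih
    obtain ⟨τ', κ', T₀', hτ', hκ', hT', H'⟩ := near_fam (V := V) (hγ (D + 1) (by omega)) hε
    refine ⟨min τ τ', min κ κ', max T₀ T₀', lt_min hτ hτ', lt_min hκ hκ',
      hT.trans (le_max_left _ _), ?_⟩
    intro d h1 h2 φ K hφ U W U' W' p q hpq hU hW hU0 hUW hUm hWm hUq hWq hr hT1
    have hp : p ∈ Set.Icc p q := ⟨le_rfl, hpq.le⟩
    have hUp := hU0 p hp
    have hWp : 0 < W' p := lt_of_lt_of_le hUp (hUW p hp)
    rcases Nat.lt_or_ge D d with h | h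
    · have hd : d = D + 1 := by omega
      subst hd
      refine H' φ K hφ U W U' W' p q hpq hU hW hU0 hUW hUm hWm (hUq.trans ?_) (hWq.trans ?_)
        (fun x hx => (hr x hx).trans ?_) ((le_max_right _ _).trans hT1)
      · exact mul_le_mul_of_nonneg_right (by linarith [min_le_right κ κ']) hUp.le
      · exact mul_le_mul_of_nonneg_right (by linarith [min_le_right κ κ']) hWp.le
      · exact mul_le_mul_of_nonneg_right (min_le_right _ _) (hU0 x hx).le
    · refine H d h1 h φ K hφ U W U' W' p q hpq hU hW hU0 hUW hUm hWm (hUq.trans ?_) (hWq.trans ?_)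
        (fun x hx => (hr x hx).trans ?_) ((le_max_left _ _).trans hT1)
      · exact mul_le_mul_of_nonneg_right (by linarith [min_le_left κ κ']) hUp.le
      · exact mul_le_mul_of_nonneg_right (by linarith [min_le_left κ κ']) hWp.le
      · exact mul_le_mul_of_nonneg_right (min_le_left _ _) (hU0 x hx).le

/-- The abstract summation over the rows. -/
theorem rows {β G ε : ℝ} (hβ : 1 < β) (hG : 0 ≤ G) (hε : 0 < ε) :
    ∃ (D : ℕ) (ε₁ : ℝ), 0 < ε₁ ∧ ∀ i₀ : ℕ, ∃ L₀ : ℕ, ∀ L : ℕ, L₀ ≤ L →
      ∀ (c : ℕ → ℕ → ℝ) (v : ℝ), (∀ i j, c i j = c j i) →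
      (∀ j < L, |c j j - v| ≤ G * β⁻¹ ^ j) →
      (∀ i j, i < j → j < L → |c i j| ≤ G * β⁻¹ ^ (j - i) + G * β⁻¹ ^ j) →
      (∀ i j, i₀ ≤ i → i < j → j ≤ i + D → j < L → |c i j| ≤ ε₁) →
      |∑ i ∈ range L, ∑ j ∈ range L, c i j - L * v| ≤ ε * L := by
  have hβ0 : 0 < β := by linarith
  set r : ℝ := β⁻¹ with hr
  have hr0 : 0 < r := inv_pos.2 hβ0
  have hr1 : r < 1 := inv_lt_one_of_one_lt₀ hβ
  set G' : ℝ := G + 1 with hG'
  have hG'0 : 0 < G' := by linarith
  have hlim : Filter.Tendsto (fun n : ℕ => r ^ n) Filter.atTop (nhds 0) :=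
    tendsto_pow_atTop_nhds_zero_of_lt_one hr0.le hr1
  obtain ⟨D, hD⟩ := (hlim.eventually_lt_const
    (show (0 : ℝ) < (ε / (24 * G')) * (1 - r) by
      have : 0 < 1 - r := by linarith
      positivity)).exists
  refine ⟨D, ε / (12 * (D + 1)), by positivity, ?_⟩
  intro i₀
  have hlim2 : Filter.Tendsto (fun n : ℕ => (n : ℝ) * r ^ n) Filter.atTop (nhds 0) :=
    tendsto_self_mul_const_pow_of_lt_one hr0.le hr1
  obtain ⟨J₁, hJ₁⟩ := Filter.eventually_atTop.1 (hlim2.eventually_lt_const
    (show (0 : ℝ) < ε / (24 * G') by positivity))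
  set J : ℕ := max (max (i₀ + D) J₁) 1 with hJ
  obtain ⟨L₀, hL₀⟩ := exists_nat_ge ((J : ℝ) * (G' + 4 * J * G') * 2 / ε)
  refine ⟨L₀, ?_⟩
  intro L hL c v hc hdiag hgen hnear
  have hrpos : ∀ n : ℕ, 0 < r ^ n := fun n => pow_pos hr0 n
  have hrle : ∀ n : ℕ, r ^ n ≤ 1 := fun n => pow_le_one₀ hr0.le hr1.le
  refine (sum_sq_bound c hc v L).trans ?_
  have hterm : ∀ j ∈ range L, |c j j - v| + 2 * ∑ i ∈ range j, |c i j|
      ≤ ε / 2 + (if j < J then G' + 4 * J * G' else 0) := by
    intro j hj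
    have hj' := Finset.mem_range.1 hj
    rcases Nat.lt_or_ge j J with h | h
    · rw [if_pos h]
      have h1 : |c j j - v| ≤ G' := by
        refine (hdiag j hj').trans ?_
        have : G * r ^ j ≤ G * 1 := mul_le_mul_of_nonneg_left (hrle j) hG
        linarith
      have h2 : ∑ i ∈ range j, |c i j| ≤ J * (2 * G') := by
        have h3 : ∀ i ∈ range j, |c i j| ≤ 2 * G' := by
          intro i hi
          refine (hgen i j (Finset.mem_range.1 hi) hj').trans ?_
          have a1 : G * r ^ (j - i) ≤ G * 1 := mul_le_mul_of_nonneg_left (hrle _) hG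
          have a2 : G * r ^ j ≤ G * 1 := mul_le_mul_of_nonneg_left (hrle _) hG
          linarith
        refine (Finset.sum_le_sum h3).trans ?_
        rw [Finset.sum_const, card_range, nsmul_eq_mul]
        have : (j : ℝ) ≤ J := by exact_mod_cast h.le
        exact mul_le_mul_of_nonneg_right this (by positivity)
      linarith
    · rw [if_neg (by omega), add_zero]
      have hJa : i₀ + D ≤ j := (le_max_left _ _).trans ((le_max_left _ _).trans h)
      have hJb : J₁ ≤ j := (le_max_right _ _).trans ((le_max_left _ _).trans h)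
      have hJc : 1 ≤ j := (le_max_right _ _).trans h
      have hrj : (j : ℝ) * r ^ j < ε / (24 * G') := hJ₁ j hJb
      have hj1 : (1 : ℝ) ≤ j := by exact_mod_cast hJc
      have hGj : G * (j * r ^ j) ≤ ε / 24 := by
        have h1 : G * (j * r ^ j) ≤ G' * (ε / (24 * G')) :=
          mul_le_mul (by linarith) hrj.le (by have := hrpos j; positivity) hG'0.le
        have h2 : G' * (ε / (24 * G')) = ε / 24 := by field_simp
        linarith
      have hd : |c j j - v| ≤ ε / 24 := by
        refine (hdiag j hj').trans (le_trans ?_ hGj)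
        apply mul_le_mul_of_nonneg_left _ hG
        have := hrpos j
        nlinarith
      have hterm2 : ∀ k ∈ range j, |c (j - 1 - k) j|
          ≤ (if k < D then ε / (12 * (D + 1)) else 0) + (if D ≤ k then G * r ^ k else 0)
            + G * r ^ j := by
        intro k hk
        have hk' : k < j := Finset.mem_range.1 hk
        have hGr : 0 ≤ G * r ^ j := mul_nonneg hG (hrpos j).le
        rcases Nat.lt_or_ge k D with h5 | h5
        · rw [if_pos h5, if_neg (by omega)]
          have := hnear (j - 1 - k) j (by omega) (by omega) (by omega) hj'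
          linarith
        · rw [if_neg (by omega), if_pos h5]
          have h6 := hgen (j - 1 - k) j (by omega) hj'
          have e1 : j - (j - 1 - k) = k + 1 := by omega
          rw [e1] at h6
          have h7 : r ^ (k + 1) ≤ r ^ k := pow_le_pow_of_le_one hr0.le hr1.le (by omega)
          have h8 : G * r ^ (k + 1) ≤ G * r ^ k := mul_le_mul_of_nonneg_left h7 hG
          linarith
      have hrow : ∑ i ∈ range j, |c i j| ≤ ε / 12 + ε / 24 + ε / 24 := by
        rw [← Finset.sum_range_reflect]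
        refine (Finset.sum_le_sum hterm2).trans ?_
        rw [Finset.sum_add_distrib, Finset.sum_add_distrib]
        have s1 : ∑ k ∈ range j, (if k < D then ε / (12 * ((D : ℝ) + 1)) else 0) ≤ ε / 12 := by
          rw [← Finset.sum_filter]
          rw [Finset.sum_const, nsmul_eq_mul]
          have hcard : ((range j).filter fun k => k < D).card ≤ D := by
            calc _ ≤ (range D).card := Finset.card_le_card (fun k hk => by
                  simp only [Finset.mem_filter, Finset.mem_range] at hk ⊢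
                  exact hk.2)
              _ = D := card_range D
          have hcard' : (((range j).filter fun k => k < D).card : ℝ) ≤ D := by
            exact_mod_cast hcard
          calc _ ≤ (D : ℝ) * (ε / (12 * ((D : ℝ) + 1))) :=
                mul_le_mul_of_nonneg_right hcard' (by positivity)
            _ ≤ ((D : ℝ) + 1) * (ε / (12 * ((D : ℝ) + 1))) :=
                mul_le_mul_of_nonneg_right (by linarith) (by positivity)
            _ = ε / 12 := by field_simp
        have s2 : ∑ k ∈ range j, (if D ≤ k then G * r ^ k else 0) ≤ ε / 24 := by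
          rw [← Finset.sum_filter, ← Finset.mul_sum]
          have hsub : (range j).filter (fun k => D ≤ k) = Finset.Ico D j := by
            ext k
            simp only [Finset.mem_filter, Finset.mem_range, Finset.mem_Ico]
            omega
          rw [hsub]
          have h1 := geom_sum_Ico_le_of_lt_one hr0.le hr1 (m := D) (n := j)
          have h2 : r ^ D / (1 - r) ≤ ε / (24 * G') := by
            rw [div_le_iff₀ (by linarith)]
            exact hD.le
          have h3 : G * ∑ k ∈ Finset.Ico D j, r ^ k ≤ G' * (ε / (24 * G')) :=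
            mul_le_mul (by linarith) (h1.trans h2)
              (Finset.sum_nonneg fun k _ => (hrpos k).le) hG'0.le
          have h4 : G' * (ε / (24 * G')) = ε / 24 := by field_simp
          linarith
        have s3 : ∑ k ∈ range j, G * r ^ j ≤ ε / 24 := by
          rw [Finset.sum_const, card_range, nsmul_eq_mul]
          calc (j : ℝ) * (G * r ^ j) = G * (j * r ^ j) := by ring
            _ ≤ ε / 24 := hGj
        linarith
      linarith
  refine (Finset.sum_le_sum hterm).trans ?_
  rw [Finset.sum_add_distrib, Finset.sum_const, card_range, nsmul_eq_mul, ← Finset.sum_filter,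
    Finset.sum_const, nsmul_eq_mul]
  have hcard : ((range L).filter fun k => k < J).card ≤ J := by
    calc _ ≤ (range J).card := Finset.card_le_card (fun k hk => by
          simp only [Finset.mem_filter, Finset.mem_range] at hk ⊢
          exact hk.2)
      _ = J := card_range J
  have hcard' : (((range L).filter fun k => k < J).card : ℝ) ≤ J := by exact_mod_cast hcard
  have h3 : (((range L).filter fun k => k < J).card : ℝ) * (G' + 4 * J * G')
      ≤ J * (G' + 4 * J * G') := mul_le_mul_of_nonneg_right hcard' (by positivity)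
  have h4 : (J : ℝ) * (G' + 4 * J * G') ≤ ε / 2 * L := by
    have h5 : ((J : ℝ) * (G' + 4 * J * G') * 2 / ε) ≤ L := hL₀.trans (by exact_mod_cast hL)
    rw [div_le_iff₀ hε] at h5
    linarith
  linarith

end Pool.Agent.Helper44.KD
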