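import Pool.Agent.Helper44.KD.NearFam
import Pool.Agent.Helper78.KD.K9a

/-! The block variance for the base three and an arc of length one half. -/

set_option autoImplicit false

open Finset MeasureTheory

namespace Pool.Agent.Helper44.KD

open H44TX Pool.Agent.Helper78.KD

theorem hermite_three (x : ℝ) : ⌊x⌋ + ⌊x + 1 / 3⌋ + ⌊x + 2 / 3⌋ = ⌊3 * x⌋ := by
  have h0 := Int.floor_le x
  have h1 := Int.lt_floor_add_one x
  rcases lt_or_ge (Int.fract x) (1 / 3) with h | h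
  · have hf : x = ⌊x⌋ + Int.fract x := (Int.floor_add_fract x).symm
    have hf0 := Int.fract_nonneg x
    have e1 : ⌊x + 1 / 3⌋ = ⌊x⌋ := Int.floor_eq_iff.2 ⟨by linarith, by linarith⟩
    have e2 : ⌊x + 2 / 3⌋ = ⌊x⌋ := Int.floor_eq_iff.2 ⟨by linarith, by linarith⟩
    have e3 : ⌊3 * x⌋ = 3 * ⌊x⌋ := Int.floor_eq_iff.2 ⟨by push_cast; linarith, by push_cast; linarith⟩
    rw [e1, e2, e3]; ring
  · rcases lt_or_ge (Int.fract x) (2 / 3) with h' | h'
    · have hf : x = ⌊x⌋ + Int.fract x := (Int.floor_add_fract x).symm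
      have e1 : ⌊x + 1 / 3⌋ = ⌊x⌋ := Int.floor_eq_iff.2 ⟨by linarith, by linarith⟩
      have e2 : ⌊x + 2 / 3⌋ = ⌊x⌋ + 1 :=
        Int.floor_eq_iff.2 ⟨by push_cast; linarith, by push_cast; linarith⟩
      have e3 : ⌊3 * x⌋ = 3 * ⌊x⌋ + 1 :=
        Int.floor_eq_iff.2 ⟨by push_cast; linarith, by push_cast; linarith⟩
      rw [e1, e2, e3]; ring
    · have hf : x = ⌊x⌋ + Int.fract x := (Int.floor_add_fract x).symm
      have hf1 := Int.fract_lt_one x
      have e1 : ⌊x + 1 / 3⌋ = ⌊x⌋ + 1 :=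
        Int.floor_eq_iff.2 ⟨by push_cast; linarith, by push_cast; linarith⟩
      have e2 : ⌊x + 2 / 3⌋ = ⌊x⌋ + 1 :=
        Int.floor_eq_iff.2 ⟨by push_cast; linarith, by push_cast; linarith⟩
      have e3 : ⌊3 * x⌋ = 3 * ⌊x⌋ + 2 :=
        Int.floor_eq_iff.2 ⟨by push_cast; linarith, by push_cast; linarith⟩
      rw [e1, e2, e3]; ring

/-- the square wave, divided by two -/
noncomputable def chi (t : ℝ) : ℝ := ⌊t⌋ - ⌊t - 1 / 2⌋ - 1 / 2

theorem chi_add_one (t : ℝ) : chi (t + 1) = chi t := by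
  unfold chi
  have e1 : ⌊t + 1⌋ = ⌊t⌋ + 1 := Int.floor_add_one t
  have e2 : ⌊t + 1 - 1 / 2⌋ = ⌊t - 1 / 2⌋ + 1 := by
    rw [← Int.floor_add_one]; congr 1; ring
  rw [e1, e2]; push_cast; ring

theorem chi_abs (t : ℝ) : |chi t| = 1 / 2 := by
  unfold chi
  have h0 := Int.floor_le t
  have h1 := Int.lt_floor_add_one t
  have hf : t = ⌊t⌋ + Int.fract t := (Int.floor_add_fract t).symm
  have hf0 := Int.fract_nonneg t
  have hf1 := Int.fract_lt_one t
  rcases lt_or_ge (Int.fract t) (1 / 2) with h | h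
  · have e1 : ⌊t - 1 / 2⌋ = ⌊t⌋ - 1 :=
      Int.floor_eq_iff.2 ⟨by push_cast; linarith, by push_cast; linarith⟩
    rw [e1]; push_cast
    rw [show (⌊t⌋ : ℝ) - (⌊t⌋ - 1) - 1 / 2 = 1 / 2 by ring]
    norm_num
  · have e1 : ⌊t - 1 / 2⌋ = ⌊t⌋ := Int.floor_eq_iff.2 ⟨by linarith, by linarith⟩
    rw [e1]
    rw [show (⌊t⌋ : ℝ) - ⌊t⌋ - 1 / 2 = -(1 / 2) by ring]
    norm_num

theorem chi_three (s : ℝ) : chi (s / 3) + chi ((s + 1) / 3) + chi ((s + 2) / 3) = chi s := by
  unfold chi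
  have h1 := hermite_three (s / 3)
  have h2 := hermite_three (s / 3 - 1 / 2)
  have e1 : (s + 1) / 3 = s / 3 + 1 / 3 := by ring
  have e2 : (s + 2) / 3 = s / 3 + 2 / 3 := by ring
  have e3 : s / 3 + 1 / 3 - 1 / 2 = s / 3 - 1 / 2 + 1 / 3 := by ring
  have e4 : s / 3 + 2 / 3 - 1 / 2 = s / 3 - 1 / 2 + 2 / 3 := by ring
  have e5 : 3 * (s / 3) = s := by ring
  have e6 : ⌊3 * (s / 3 - 1 / 2)⌋ = ⌊s - 1 / 2⌋ - 1 := by
    rw [← Int.floor_sub_one]; congr 1; ring
  rw [e5] at h1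
  rw [e6] at h2
  rw [e1, e2, e3, e4]
  have h1' : (⌊s / 3⌋ : ℝ) + ⌊s / 3 + 1 / 3⌋ + ⌊s / 3 + 2 / 3⌋ = ⌊s⌋ := by exact_mod_cast h1
  have h2' : (⌊s / 3 - 1 / 2⌋ : ℝ) + ⌊s / 3 - 1 / 2 + 1 / 3⌋ + ⌊s / 3 - 1 / 2 + 2 / 3⌋
      = ⌊s - 1 / 2⌋ - 1 := by exact_mod_cast h2
  linarith

theorem chi_meas : Measurable chi := by
  unfold chi
  have h1 : Measurable fun t : ℝ => ((⌊t⌋ : ℤ) : ℝ) :=
    (measurable_from_top (f := fun n : ℤ => (n : ℝ))).comp Int.measurable_floor
  have h2 : Measurable fun t : ℝ => ((⌊t - 1 / 2⌋ : ℤ) : ℝ) :=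
    h1.comp (measurable_id.sub_const (1 / 2))
  exact (h1.sub h2).sub_const _

theorem chi_transfer {F : ℝ → ℝ} (hF : Measurable F) (hb : ∀ t, |F t| ≤ 1)
    (hp : ∀ t, F (t + 1) = F t) :
    ∫ t in (0 : ℝ)..1, chi t * F (3 * t) = (1 / 3) * ∫ t in (0 : ℝ)..1, chi t * F t := by
  let H : ℝ → ℝ := fun s => chi (s / 3) * F s
  have hm : ∀ c : ℝ, Measurable fun s => chi ((s + c) / 3) := fun c =>
    chi_meas.comp ((measurable_id.add_const c).div_const 3)
  have hbc : ∀ s t : ℝ, |chi s * F t| ≤ 1 := fun s t => by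
    rw [abs_mul, chi_abs]
    linarith [hb t]
  have hI : ∀ c a b : ℝ, IntervalIntegrable (fun s => chi ((s + c) / 3) * F s) volume a b :=
    fun c a b => intInt_of_bdd ((hm c).mul hF) (C := 1) (fun s => hbc _ _) a b
  have hH : H = fun s => chi ((s + 0) / 3) * F s := by funext s; simp [H]
  have hIH : ∀ a b : ℝ, IntervalIntegrable H volume a b := fun a b => by rw [hH]; exact hI 0 a b
  have h1 : ∫ t in (0 : ℝ)..1, chi t * F (3 * t) = (1 / 3) * ∫ s in (0 : ℝ)..3, H s := by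
    have := intervalIntegral.integral_comp_mul_left (a := 0) (b := 1) H
      (show (3 : ℝ) ≠ 0 by norm_num)
    simp only [mul_zero, mul_one, smul_eq_mul] at this
    rw [show (1 / 3 : ℝ) = 3⁻¹ by norm_num, ← this]
    congr 1
    funext t
    simp only [H]
    congr 2
    ring
  have h2 : ∫ s in (0 : ℝ)..3, H s = (∫ s in (0 : ℝ)..1, H s) + (∫ s in (1 : ℝ)..2, H s)
      + ∫ s in (2 : ℝ)..3, H s := by
    rw [intervalIntegral.integral_add_adjacent_intervals (hIH 0 1) (hIH 1 2),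
      intervalIntegral.integral_add_adjacent_intervals (hIH 0 2) (hIH 2 3)]
  have h3 : ∫ s in (1 : ℝ)..2, H s = ∫ s in (0 : ℝ)..1, chi ((s + 1) / 3) * F s := by
    have := intervalIntegral.integral_comp_add_right (a := 0) (b := 1) H 1
    rw [show (0 : ℝ) + 1 = 1 by norm_num, show (1 : ℝ) + 1 = 2 by norm_num] at this
    rw [← this]
    congr 1
    funext s
    simp only [H, hp]
  have h4 : ∫ s in (2 : ℝ)..3, H s = ∫ s in (0 : ℝ)..1, chi ((s + 2) / 3) * F s := by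
    have := intervalIntegral.integral_comp_add_right (a := 0) (b := 1) H 2
    rw [show (0 : ℝ) + 2 = 2 by norm_num, show (1 : ℝ) + 2 = 3 by norm_num] at this
    rw [← this]
    congr 1
    funext s
    simp only [H]
    rw [show s + 2 = (s + 1) + 1 by ring, hp, hp]
  rw [h1, h2, h3, h4]
  congr 1
  have e : ∀ s, chi s * F s = H s + chi ((s + 1) / 3) * F s + chi ((s + 2) / 3) * F s := by
    intro s
    simp only [H]
    rw [← chi_three s]; ring
  simp only [e]
  rw [intervalIntegral.integral_add ((hIH 0 1).add (hI 1 0 1)) (hI 2 0 1),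
    intervalIntegral.integral_add (hIH 0 1) (hI 1 0 1)]

theorem chi_corr (d : ℕ) : ∫ t in (0 : ℝ)..1, chi t * chi (3 ^ d * t) = (1 / 3) ^ d / 4 := by
  induction d with
  | zero =>
    have e : ∀ t : ℝ, chi t * chi (3 ^ 0 * t) = 1 / 4 := by
      intro t
      rw [pow_zero, one_mul, ← abs_mul_abs_self, chi_abs]
      norm_num
    simp only [e]
    simp
  | succ d ih =>
    have hper : ∀ t : ℝ, chi (3 ^ d * (t + 1)) = chi (3 ^ d * t) := by
      intro t
      have hn : ∀ (n : ℕ) (x : ℝ), chi (x + n) = chi x := by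
        intro n
        induction n with
        | zero => intro x; simp
        | succ n ihn => intro x; push_cast; rw [← add_assoc, chi_add_one, ihn]
      have : (3 : ℝ) ^ d * (t + 1) = 3 ^ d * t + ((3 ^ d : ℕ) : ℝ) := by push_cast; ring
      rw [this, hn]
    have hm : Measurable fun t : ℝ => chi (3 ^ d * t) :=
      chi_meas.comp (measurable_const.mul measurable_id)
    have := chi_transfer hm (fun t => by rw [chi_abs]; norm_num) hper
    have e : ∀ t : ℝ, chi (3 ^ (d + 1) * t) = chi (3 ^ d * (3 * t)) := by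
      intro t; congr 1; ring
    simp only [e]
    rw [this, ih]
    ring

/-- the average of a periodic function over a long interval -/
theorem per_avg {F : ℝ → ℝ} (hF : Measurable F) (hFb : ∀ t, |F t| ≤ 1)
    (hFp : Function.Periodic F 1) (α κ ℓ : ℝ) (hκ : 0 < κ) (hℓ : 0 < ℓ) :
    |(∫ y in (0 : ℝ)..ℓ, F (α + κ * y)) / ℓ - ∫ t in (0 : ℝ)..1, F t| ≤ 2 / (κ * ℓ) := by
  have hT : 0 < κ * ℓ := by positivity
  set v := ∫ t in (0 : ℝ)..1, F t with hv
  have hI : ∀ a b : ℝ, IntervalIntegrable F volume a b := fun a b => intInt_of_bdd hF hFb a b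
  have h1 : ∫ y in (0 : ℝ)..ℓ, F (α + κ * y) = (∫ t in α..(α + κ * ℓ), F t) / κ := by
    have := intervalIntegral.integral_comp_add_mul (a := 0) (b := ℓ) (fun t => F t) hκ.ne' α
    simp only [mul_zero, add_zero, smul_eq_mul] at this
    rw [div_eq_inv_mul]
    exact this
  have h2 : ∀ n : ℕ, ∫ t in α..(α + n), F t = n * v := by
    intro n
    induction n with
    | zero => simp
    | succ n ih =>
      have h5 : ∫ t in α..(α + (n + 1 : ℕ)), F t
          = (∫ t in α..(α + n), F t) + ∫ t in (α + n)..(α + n + 1), F t := by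
        rw [intervalIntegral.integral_add_adjacent_intervals (hI _ _) (hI _ _)]
        congr 1
        push_cast; ring
      have h6 := hFp.intervalIntegral_add_eq (α + n) 0
      rw [zero_add] at h6
      rw [h5, ih, h6]
      push_cast
      rw [← hv]; ring
  let n : ℕ := ⌊κ * ℓ⌋₊
  have hn1 : (n : ℝ) ≤ κ * ℓ := Nat.floor_le hT.le
  have hn2 : κ * ℓ < n + 1 := Nat.lt_floor_add_one _
  have h3 : ∫ t in α..(α + κ * ℓ), F t = n * v + ∫ t in (α + n)..(α + κ * ℓ), F t := by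
    rw [← h2 n, intervalIntegral.integral_add_adjacent_intervals (hI _ _) (hI _ _)]
  have hv1 : |v| ≤ 1 := by
    have := abs_int_le hFb (a := 0) (b := 1) (by norm_num)
    simpa [← hv] using this
  have h5 := abs_int_le hFb (a := α + n) (b := α + κ * ℓ) (by linarith)
  have h6 : (∫ y in (0 : ℝ)..ℓ, F (α + κ * y)) / ℓ - v
      = ((∫ t in (α + n)..(α + κ * ℓ), F t) - (κ * ℓ - n) * v) / (κ * ℓ) := by
    rw [h1, h3]
    field_simp
    ring
  rw [h6, abs_div, abs_of_pos hT]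
  apply div_le_div_of_nonneg_right _ hT.le
  have h7 : |(κ * ℓ - n) * v| ≤ 1 := by
    rw [abs_mul, abs_of_nonneg (by linarith : 0 ≤ κ * ℓ - n)]
    calc (κ * ℓ - n) * |v| ≤ 1 * 1 := mul_le_mul (by linarith) hv1 (abs_nonneg _) (by norm_num)
      _ = 1 := by norm_num
  have h8 := abs_sub (∫ t in (α + n)..(α + κ * ℓ), F t) ((κ * ℓ - n) * v)
  linarith

end Pool.Agent.Helper44.KD
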