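import Pool.Agent.Helper44.KD.Three

/-! The block variance for the base three and an arc of length one half: assembly. -/

set_option autoImplicit false

open Finset MeasureTheory

namespace Pool.Agent.Helper44.KD

open H44TX Pool.Agent.Helper78.KD

theorem per_mul {F : ℝ → ℝ} (hF : Measurable F) (hFb : ∀ t, |F t| ≤ 2)
    (hFp : ∀ t, F (t + 1) = F t) (N : ℕ) (hN : 0 < N) :
    ∫ t in (0 : ℝ)..1, F (N * t) = ∫ t in (0 : ℝ)..1, F t := by
  have hN0 : (0 : ℝ) < N := by exact_mod_cast hN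
  have hI : ∀ a b : ℝ, IntervalIntegrable F volume a b := fun a b => intInt_of_bdd hF hFb a b
  have hP : Function.Periodic F 1 := hFp
  have h2 : ∀ n : ℕ, ∫ t in (0 : ℝ)..n, F t = n * ∫ t in (0 : ℝ)..1, F t := by
    intro n
    induction n with
    | zero => simp
    | succ n ih =>
      have h5 : ∫ t in (0 : ℝ)..((n + 1 : ℕ) : ℝ), F t
          = (∫ t in (0 : ℝ)..n, F t) + ∫ t in (n : ℝ)..(n + 1), F t := by
        rw [intervalIntegral.integral_add_adjacent_intervals (hI _ _) (hI _ _)]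
        congr 1
        push_cast; ring
      have h6 := hP.intervalIntegral_add_eq (n : ℝ) 0
      rw [zero_add] at h6
      rw [h5, ih, h6]
      push_cast
      ring
  have := intervalIntegral.integral_comp_mul_left (a := 0) (b := 1) F hN0.ne'
  simp only [mul_zero, mul_one, smul_eq_mul] at this
  rw [this, h2 N]
  field_simp

/-- the defect of the trapezoid -/
noncomputable def gap (η t : ℝ) : ℝ := 1 - min 1 (Int.fract t / η)

theorem gap_meas (η : ℝ) : Measurable (gap η) := by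
  unfold gap
  exact measurable_const.sub (measurable_const.min (measurable_fract.div_const η))

theorem gap_nonneg (η t : ℝ) : 0 ≤ gap η t := by
  unfold gap
  linarith [min_le_left 1 (Int.fract t / η)]

theorem gap_le {η : ℝ} (h0 : 0 < η) (t : ℝ) : gap η t ≤ 1 := by
  unfold gap
  have : 0 ≤ min 1 (Int.fract t / η) := le_min zero_le_one (div_nonneg (Int.fract_nonneg t) h0.le)
  linarith

theorem gap_per (η t : ℝ) : gap η (t + 1) = gap η t := by
  unfold gap
  rw [Int.fract_add_one]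

theorem gap_int {η : ℝ} (h0 : 0 < η) (h1 : η ≤ 1) : ∫ t in (0 : ℝ)..1, gap η t ≤ η := by
  have e1 : ∫ t in (0 : ℝ)..1, gap η t = ∫ t in (0 : ℝ)..1, (1 - min 1 (t / η)) := by
    apply intervalIntegral.integral_congr_ae
    have hne : ∀ᵐ t : ℝ, t ≠ 1 := by
      have : (volume : Measure ℝ) {1} = 0 := by simp
      exact compl_mem_ae_iff.2 this
    filter_upwards [hne] with t ht hmem
    rw [Set.uIoc_of_le zero_le_one] at hmem
    unfold gap
    have : Int.fract t = t := Int.fract_eq_self.2 ⟨hmem.1.le, lt_of_le_of_ne hmem.2 ht⟩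
    rw [this]
  have hc : Continuous fun t : ℝ => 1 - min 1 (t / η) := by fun_prop
  have hI : ∀ a b : ℝ, IntervalIntegrable (fun t : ℝ => 1 - min 1 (t / η)) volume a b :=
    fun a b => hc.intervalIntegrable a b
  rw [e1, ← intervalIntegral.integral_add_adjacent_intervals (hI 0 η) (hI η 1)]
  have e2 : ∫ t in η..1, (1 - min 1 (t / η)) = 0 := by
    have : ∫ t in η..1, (1 - min 1 (t / η)) = ∫ t in η..1, (0 : ℝ) := by
      apply intervalIntegral.integral_congr
      intro t ht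
      rw [Set.uIcc_of_le h1] at ht
      have : 1 ≤ t / η := (one_le_div h0).2 ht.1
      simp only [min_eq_left this, sub_self]
    rw [this]; simp
  have e3 : ∫ t in (0 : ℝ)..η, (1 - min 1 (t / η)) ≤ ∫ t in (0 : ℝ)..η, (1 : ℝ) := by
    apply intervalIntegral.integral_mono_on h0.le (hI _ _) (by simp)
    intro t ht
    have : 0 ≤ min 1 (t / η) := le_min zero_le_one (div_nonneg ht.1 h0.le)
    linarith
  rw [e2, add_zero]
  refine e3.trans (le_of_eq ?_)
  simp

theorem tr_chi {η : ℝ} (t : ℝ) :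
    |tr η (1 / 2) (-(1 / 2)) t - chi t| ≤ gap η t + gap η (t - 1 / 2) := by
  have e : tr η (1 / 2) (-(1 / 2)) t - chi t = gap η (t - 1 / 2) - gap η t := by
    unfold tr tz chi gap
    have e1 : t + -(1 / 2) + 1 / 2 = t := by ring
    have e2 : t + -(1 / 2) = t - 1 / 2 := by ring
    rw [e1, e2]; ring
  have h1 := gap_nonneg η t
  have h2 := gap_nonneg η (t - 1 / 2)
  rw [e, abs_le]
  constructor <;> linarith

theorem tr_corr {η : ℝ} (h0 : 0 < η) (h1 : η ≤ 1) (d : ℕ) :
    |(∫ t in (0 : ℝ)..1, tr η (1 / 2) (-(1 / 2)) t * tr η (1 / 2) (-(1 / 2)) (3 ^ d * t))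
      - (1 / 3) ^ d / 4| ≤ 4 * η := by
  set φ := tr η (1 / 2) (-(1 / 2)) with hφ
  have hcls := tr_cls h0 h1 (1 / 2) (-(1 / 2))
  rw [← hφ] at hcls
  have hφc : Continuous φ := cls_cont hcls
  have hφm : Measurable φ := hφc.measurable
  let G : ℝ → ℝ := fun t => gap η t + gap η (t - 1 / 2)
  have hGm : Measurable G := (gap_meas η).add ((gap_meas η).comp (measurable_id.sub_const _))
  have hG0 : ∀ t, 0 ≤ G t := fun t => add_nonneg (gap_nonneg _ _) (gap_nonneg _ _)
  have hG2 : ∀ t, |G t| ≤ 2 := fun t => by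
    rw [abs_of_nonneg (hG0 t)]
    have := gap_le h0 t
    have := gap_le h0 (t - 1 / 2)
    simp only [G]; linarith
  have hGp : ∀ t, G (t + 1) = G t := fun t => by
    simp only [G, gap_per]
    have : t + 1 - 1 / 2 = (t - 1 / 2) + 1 := by ring
    rw [this, gap_per]
  have hIg : ∀ a b : ℝ, IntervalIntegrable (gap η) volume a b := fun a b =>
    intInt_of_bdd (gap_meas η) (C := 1) (fun x => by
      rw [abs_of_nonneg (gap_nonneg _ _)]; exact gap_le h0 x) a b
  have hIg2 : ∀ a b : ℝ, IntervalIntegrable (fun t => gap η (t - 1 / 2)) volume a b := fun a b =>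
    intInt_of_bdd ((gap_meas η).comp (measurable_id.sub_const _)) (C := 1) (fun x => by
      simp only [Function.comp]
      rw [abs_of_nonneg (gap_nonneg _ _)]; exact gap_le h0 _) a b
  have hGint : ∫ t in (0 : ℝ)..1, G t ≤ 2 * η := by
    have e1 : ∫ t in (0 : ℝ)..1, G t
        = (∫ t in (0 : ℝ)..1, gap η t) + ∫ t in (0 : ℝ)..1, gap η (t - 1 / 2) :=
      intervalIntegral.integral_add (hIg 0 1) (hIg2 0 1)
    have e2 : ∫ t in (0 : ℝ)..1, gap η (t - 1 / 2) = ∫ t in (0 : ℝ)..1, gap η t := by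
      rw [intervalIntegral.integral_comp_sub_right (fun t => gap η t) (1 / 2)]
      have hP : Function.Periodic (gap η) 1 := gap_per η
      have h6 := hP.intervalIntegral_add_eq (0 - 1 / 2) 0
      rw [zero_add] at h6
      rw [← h6]
      congr 1
      ring
    rw [e1, e2]
    have := gap_int h0 h1
    linarith
  have hG3 : ∫ t in (0 : ℝ)..1, G (3 ^ d * t) = ∫ t in (0 : ℝ)..1, G t := by
    have := per_mul hGm hG2 hGp (3 ^ d) (by positivity)
    push_cast at this
    exact this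
  have hm3 : Measurable fun t : ℝ => 3 ^ d * t := measurable_const.mul measurable_id
  have hI1 : IntervalIntegrable (fun t => φ t * φ (3 ^ d * t)) volume 0 1 :=
    intInt_of_bdd (hφm.mul (hφm.comp hm3)) (C := 1)
      (fun t => abs_mul_le_one (hcls.bd _) (hcls.bd _)) _ _
  have hI2 : IntervalIntegrable (fun t => chi t * chi (3 ^ d * t)) volume 0 1 :=
    intInt_of_bdd (chi_meas.mul (chi_meas.comp hm3)) (C := 1)
      (fun t => abs_mul_le_one (by rw [chi_abs]; norm_num) (by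
        simp only [Function.comp]; rw [chi_abs]; norm_num)) _ _
  have hI3 : IntervalIntegrable G volume 0 1 := intInt_of_bdd hGm hG2 _ _
  have hI4 : IntervalIntegrable (fun t => G (3 ^ d * t)) volume 0 1 :=
    intInt_of_bdd (hGm.comp hm3) (fun t => hG2 _) _ _
  rw [← chi_corr d, ← intervalIntegral.integral_sub hI1 hI2]
  refine (intervalIntegral.abs_integral_le_integral_abs zero_le_one).trans ?_
  have hle : ∫ t in (0 : ℝ)..1, |φ t * φ (3 ^ d * t) - chi t * chi (3 ^ d * t)|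
      ≤ ∫ t in (0 : ℝ)..1, (G t + G (3 ^ d * t)) := by
    apply intervalIntegral.integral_mono_on zero_le_one (hI1.sub hI2).abs (hI3.add hI4)
    intro t _
    have e1 : φ t * φ (3 ^ d * t) - chi t * chi (3 ^ d * t)
        = (φ t - chi t) * φ (3 ^ d * t) + chi t * (φ (3 ^ d * t) - chi (3 ^ d * t)) := by ring
    have t1 : |φ t - chi t| ≤ G t := tr_chi t
    have t2 : |φ (3 ^ d * t) - chi (3 ^ d * t)| ≤ G (3 ^ d * t) := tr_chi (3 ^ d * t)
    rw [e1]
    refine (abs_add_le _ _).trans (add_le_add ?_ ?_)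
    · rw [abs_mul]
      calc _ ≤ G t * 1 := mul_le_mul t1 (hcls.bd _) (abs_nonneg _) (hG0 t)
        _ = G t := mul_one _
    · rw [abs_mul, chi_abs]
      have := hG0 (3 ^ d * t)
      linarith
  refine hle.trans ?_
  rw [intervalIntegral.integral_add hI3 hI4, hG3]
  linarith

theorem geom_rev (L : ℕ) : ∑ i ∈ range L, (1 / 3 : ℝ) ^ (L - i) = (1 - (1 / 3) ^ L) / 2 := by
  induction L with
  | zero => simp
  | succ L ih =>
    rw [Finset.sum_range_succ]
    have e1 : ∑ i ∈ range L, (1 / 3 : ℝ) ^ (L + 1 - i)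
        = (1 / 3) * ∑ i ∈ range L, (1 / 3 : ℝ) ^ (L - i) := by
      rw [Finset.mul_sum]
      apply Finset.sum_congr rfl
      intro i hi
      have : L + 1 - i = (L - i) + 1 := by have := Finset.mem_range.1 hi; omega
      rw [this, pow_succ]; ring
    have e2 : L + 1 - L = 1 := by omega
    rw [e1, ih, e2]
    ring

theorem geom_sq (L : ℕ) : ∑ i ∈ range L, ∑ j ∈ range L, (1 / 3 : ℝ) ^ ((i - j) + (j - i)) / 4
    = L / 2 - 3 / 8 * (1 - (1 / 3) ^ L) := by
  induction L with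
  | zero => simp
  | succ L ih =>
    have h1 : ∑ i ∈ range (L + 1), ∑ j ∈ range (L + 1), (1 / 3 : ℝ) ^ ((i - j) + (j - i)) / 4
        = ∑ i ∈ range L, ∑ j ∈ range L, (1 / 3 : ℝ) ^ ((i - j) + (j - i)) / 4
          + ∑ i ∈ range L, (1 / 3 : ℝ) ^ (L - i) / 4
          + ∑ j ∈ range L, (1 / 3 : ℝ) ^ (L - j) / 4 + 1 / 4 := by
      rw [Finset.sum_range_succ]
      have a1 : ∑ i ∈ range L, ∑ j ∈ range (L + 1), (1 / 3 : ℝ) ^ ((i - j) + (j - i)) / 4
          = ∑ i ∈ range L, ∑ j ∈ range L, (1 / 3 : ℝ) ^ ((i - j) + (j - i)) / 4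
            + ∑ i ∈ range L, (1 / 3 : ℝ) ^ (L - i) / 4 := by
        rw [← Finset.sum_add_distrib]
        apply Finset.sum_congr rfl
        intro i hi
        have hi' := Finset.mem_range.1 hi
        rw [Finset.sum_range_succ]
        have : (i - L) + (L - i) = L - i := by omega
        rw [this]
      have a2 : ∑ j ∈ range (L + 1), (1 / 3 : ℝ) ^ ((L - j) + (j - L)) / 4
          = ∑ j ∈ range L, (1 / 3 : ℝ) ^ (L - j) / 4 + 1 / 4 := by
        rw [Finset.sum_range_succ]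
        congr 1
        · apply Finset.sum_congr rfl
          intro j hj
          have hj' := Finset.mem_range.1 hj
          have : (L - j) + (j - L) = L - j := by omega
          rw [this]
        · simp
      rw [a1, a2]; ring
    rw [h1, ih, ← Finset.sum_div, geom_rev]
    push_cast
    ring

theorem block_three {ε : ℝ} (hε : 0 < ε) : ∃ (L₀ : ℕ) (η₀ : ℝ), 0 < η₀ ∧ η₀ ≤ 1 ∧
    ∀ η : ℝ, 0 < η → η ≤ η₀ → ∀ L : ℕ, L₀ ≤ L →
    ∀ (n₀ : ℕ) (a b : ℝ), BlockVar (tr η (1 / 2) (-(1 / 2))) (fun n ξ => ξ * 3 ^ (n + n₀ + 1)) a b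
      (1 / 2) ε L := by
  obtain ⟨D, ε₁, hε₁, hrows⟩ := rows (show (1 : ℝ) < 3 by norm_num)
    (show (0 : ℝ) ≤ 4 by norm_num) (show (0 : ℝ) < ε / 4 by positivity)
  obtain ⟨i₀, hi₀⟩ := Filter.eventually_atTop.1 ((tendsto_pow_atTop_nhds_zero_of_lt_one
    (show (0 : ℝ) ≤ 3⁻¹ by norm_num) (show (3 : ℝ)⁻¹ < 1 by norm_num)).eventually_lt_const
    (show (0 : ℝ) < ε₁ / 4 by positivity))
  obtain ⟨L₁, hL₁⟩ := hrows i₀
  obtain ⟨L₂, hL₂⟩ := exists_nat_ge (3 / (2 * ε))
  refine ⟨max L₁ L₂, min 1 (min (ε / 16) (ε₁ / 8)), lt_min one_pos (lt_min (by positivity)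
    (by positivity)), min_le_left _ _, ?_⟩
  intro η h0 hη L hL n₀ a b n p q hp hpq hq h1 h2
  have hη1 : η ≤ 1 := hη.trans (min_le_left _ _)
  have hη2 : η ≤ ε / 16 := hη.trans ((min_le_right _ _).trans (min_le_left _ _))
  have hη3 : η ≤ ε₁ / 8 := hη.trans ((min_le_right _ _).trans (min_le_right _ _))
  set φ := tr η (1 / 2) (-(1 / 2)) with hφ
  have hcls := tr_cls h0 hη1 (1 / 2) (-(1 / 2))
  rw [← hφ] at hcls
  have hφc : Continuous φ := cls_cont hcls
  have hφm : Measurable φ := hφc.measurable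
  have hbv : IsBV φ := by
    have := isBV_of_cls hcls
    simpa using this
  set ℓ := q - p with hℓ
  have hℓ0 : 0 < ℓ := by rw [hℓ]; linarith
  let κ : ℕ → ℝ := fun i => 3 ^ (n + i + n₀ + 1)
  have hκ0 : ∀ i, 0 < κ i := fun i => by simp only [κ]; positivity
  have hκ3 : ∀ i d, κ (i + d) = 3 ^ d * κ i := by
    intro i d
    simp only [κ]
    rw [← pow_add]; congr 1; ring
  have hlen0 : 1 ≤ κ 0 * ℓ := by
    simp only [κ]
    rw [hℓ]
    simp only [add_zero] at h1 ⊢
    linarith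
  have hlen : ∀ i, 3 ^ i ≤ κ i * ℓ := by
    intro i
    have := hκ3 0 i
    rw [zero_add] at this
    rw [this, mul_assoc]
    have h3 : (0 : ℝ) < 3 ^ i := by positivity
    nlinarith
  have hinv : ∀ i, 1 / (κ i * ℓ) ≤ 3⁻¹ ^ i := by
    intro i
    rw [inv_pow, ← one_div]
    exact one_div_le_one_div_of_le (by positivity) (hlen i)
  have hrpos : ∀ j : ℕ, (0 : ℝ) < 3⁻¹ ^ j := fun j => by positivity
  let c : ℕ → ℕ → ℝ := fun i j =>
    (∫ y in (0 : ℝ)..ℓ, φ (p * κ i + κ i * y) * φ (p * κ j + κ j * y)) / ℓ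
  let c' : ℕ → ℕ → ℝ := fun i j => c i j - (1 / 3) ^ ((i - j) + (j - i)) / 4
  have hcc : ∀ i j, c' i j = c' j i := by
    intro i j
    simp only [c', c]
    rw [add_comm (i - j)]
    congr 3
    funext y
    ring
  let ρ : ℕ → ℝ := fun d => ∫ t in (0 : ℝ)..1, φ t * φ (3 ^ d * t)
  have hρ : ∀ d, |ρ d - (1 / 3) ^ d / 4| ≤ 4 * η := fun d => tr_corr h0 hη1 d
  have hper : ∀ t, φ (t + 1) = φ t := hbv.per
  have hpern : ∀ (N : ℕ) (t : ℝ), φ (t + N) = φ t := by
    intro N
    induction N with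
    | zero => intro t; simp
    | succ N ih => intro t; push_cast; rw [← add_assoc, hper, ih]
  have hcρ : ∀ i d, |c i (i + d) - ρ d| ≤ 2 * 3⁻¹ ^ i := by
    intro i d
    have hm3 : Measurable fun t : ℝ => 3 ^ d * t := measurable_const.mul measurable_id
    have hP : Function.Periodic (fun t => φ t * φ (3 ^ d * t)) 1 := by
      intro t
      simp only [hper]
      congr 1
      have : (3 : ℝ) ^ d * (t + 1) = 3 ^ d * t + ((3 ^ d : ℕ) : ℝ) := by push_cast; ring
      rw [this, hpern]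
    have := per_avg (F := fun t => φ t * φ (3 ^ d * t)) (hφm.mul (hφm.comp hm3))
      (fun t => abs_mul_le_one (hcls.bd _) (hcls.bd _)) hP (p * κ i) (κ i) ℓ (hκ0 i) hℓ0
    have e1 : c i (i + d) = (∫ y in (0 : ℝ)..ℓ, (fun t => φ t * φ (3 ^ d * t))
        (p * κ i + κ i * y)) / ℓ := by
      simp only [c]
      congr 2
      funext y
      congr 2
      rw [hκ3]; ring
    rw [← e1] at this
    refine this.trans ?_
    have e2 : 2 / (κ i * ℓ) = 2 * (1 / (κ i * ℓ)) := by ring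
    rw [e2]
    exact mul_le_mul_of_nonneg_left (hinv i) (by norm_num)
  -- diagonal
  have hdiag : ∀ j < L, |c' j j - (ρ 0 - 1 / 4)| ≤ 4 * 3⁻¹ ^ j := by
    intro j _
    have := hcρ j 0
    simp only [add_zero] at this
    have e : c' j j - (ρ 0 - 1 / 4) = c j j - ρ 0 := by
      simp only [c', Nat.sub_self, add_zero, pow_zero]; ring
    rw [e]
    have := hrpos j
    linarith
  have hgen : ∀ i j, i < j → j < L → |c' i j| ≤ 4 * 3⁻¹ ^ (j - i) + 4 * 3⁻¹ ^ j := by
    intro i j hij _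
    have hb := lag_bound hbv (p * κ i) (κ i) (p * κ j) (κ j) ℓ (hκ0 i) (hκ0 j) hℓ0
    have e1 : κ i / κ j = 3⁻¹ ^ (j - i) := by
      have := hκ3 i (j - i)
      have e2 : i + (j - i) = j := by omega
      rw [e2] at this
      have h3 := hκ0 i
      rw [this, inv_pow]
      field_simp
    have e2 : 3 / (κ j * ℓ) = 3 * (1 / (κ j * ℓ)) := by ring
    rw [e1, e2] at hb
    have e3 : (i - j) + (j - i) = j - i := by omega
    have e4 : (1 / 3 : ℝ) ^ (j - i) = 3⁻¹ ^ (j - i) := by rw [one_div]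
    have h3 := hinv j
    have h4 := hrpos (j - i)
    have h5 := hrpos j
    have h6 : |c' i j| ≤ |c i j| + 3⁻¹ ^ (j - i) / 4 := by
      simp only [c', e3, e4]
      refine (abs_sub _ _).trans ?_
      rw [abs_of_pos (show (0 : ℝ) < 3⁻¹ ^ (j - i) / 4 by positivity)]
    have h7 : |c i j| ≤ 2 * 3⁻¹ ^ (j - i) + 3 * (1 / (κ j * ℓ)) := hb
    linarith
  have hnear : ∀ i j, i₀ ≤ i → i < j → j ≤ i + D → j < L → |c' i j| ≤ ε₁ := by
    intro i j hi hij _ _
    have h3 := hcρ i (j - i)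
    have e2 : i + (j - i) = j := by omega
    rw [e2] at h3
    have h4 := hρ (j - i)
    have e3 : (i - j) + (j - i) = j - i := by omega
    have e : c' i j = (c i j - ρ (j - i)) + (ρ (j - i) - (1 / 3) ^ (j - i) / 4) := by
      simp only [c', e3]; ring
    rw [e]
    refine (abs_add_le _ _).trans ?_
    have h5 := hi₀ i hi
    linarith
  have hfin := hL₁ L ((le_max_left _ _).trans hL) c' (ρ 0 - 1 / 4) hcc hdiag hgen hnear
  have hv : |ρ 0 - 1 / 4| ≤ 4 * η := by
    have := hρ 0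
    simpa using this
  -- expansion
  have hsq := sq_int hbv (fun i => p * κ i) κ ℓ L
  have hcov : ∀ i j, cov φ (fun i => p * κ i) κ ℓ i j = c i j := fun i j => rfl
  simp only [hcov] at hsq
  have hshift : (∫ x in p..q, (∑ j ∈ Finset.Ico n (n + L), φ (x * 3 ^ (j + n₀ + 1))) ^ 2)
      = ∫ y in (0 : ℝ)..ℓ, (∑ j ∈ range L, φ (p * κ j + κ j * y)) ^ 2 := by
    have e1 := intervalIntegral.integral_comp_add_left (a := 0) (b := ℓ)
      (fun x => (∑ j ∈ Finset.Ico n (n + L), φ (x * 3 ^ (j + n₀ + 1))) ^ 2) p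
    have e2 : p + 0 = p := by ring
    have e3 : p + ℓ = q := by rw [hℓ]; ring
    rw [e2, e3] at e1
    rw [← e1]
    congr 1
    funext y
    congr 1
    rw [Finset.sum_Ico_eq_sum_range, Nat.add_sub_cancel_left]
    apply Finset.sum_congr rfl
    intro j _
    congr 1
    simp only [κ]
    ring
  have hS := geom_sq L
  have hc'sum : ∑ i ∈ range L, ∑ j ∈ range L, c i j
      = ∑ i ∈ range L, ∑ j ∈ range L, c' i j + (L / 2 - 3 / 8 * (1 - (1 / 3) ^ L)) := by
    rw [← hS, ← Finset.sum_add_distrib]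
    apply Finset.sum_congr rfl
    intro i _
    rw [← Finset.sum_add_distrib]
    apply Finset.sum_congr rfl
    intro j _
    simp only [c']; ring
  rw [hc'sum] at hsq
  have hLε : 3 / 8 ≤ ε / 4 * L := by
    have h3 : (3 / (2 * ε)) ≤ L := hL₂.trans (by exact_mod_cast (le_max_right _ _).trans hL)
    rw [div_le_iff₀ (by positivity)] at h3
    linarith
  have hp3 : (0 : ℝ) ≤ (1 / 3) ^ L ∧ (1 / 3 : ℝ) ^ L ≤ 1 :=
    ⟨by positivity, pow_le_one₀ (by norm_num) (by norm_num)⟩
  rw [hshift]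
  rw [div_eq_iff hℓ0.ne'] at hsq
  rw [hsq]
  have hL0 : (0 : ℝ) ≤ L := by positivity
  have hvL : |L * (ρ 0 - 1 / 4)| ≤ L * (ε / 4) := by
    rw [abs_mul, abs_of_nonneg hL0]
    exact mul_le_mul_of_nonneg_left (by linarith) hL0
  have e1 : (∑ i ∈ range L, ∑ j ∈ range L, c' i j + (L / 2 - 3 / 8 * (1 - (1 / 3) ^ L))) * ℓ
      - 1 / 2 * L * ℓ
      = ((∑ i ∈ range L, ∑ j ∈ range L, c' i j - L * (ρ 0 - 1 / 4)) + L * (ρ 0 - 1 / 4)
        - 3 / 8 * (1 - (1 / 3) ^ L)) * ℓ := by ring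
  rw [e1, abs_mul, abs_of_pos hℓ0]
  apply mul_le_mul_of_nonneg_right _ hℓ0.le
  have f1 := abs_le.1 hfin
  have f2 := abs_le.1 hvL
  rw [abs_le]
  constructor <;> nlinarith [f1.1, f1.2, f2.1, f2.2, hp3.1, hp3.2]

end Pool.Agent.Helper44.KD
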